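import Pool.Agent.MP_3ad207_lc.H43.LinDefs

/-! The rooted tree API: subtrees, depth, parents, children, least common ancestors, pieces cut
off by white vertices, and a balanced white vertex. -/

set_option autoImplicit false

namespace Pool.Agent.Ehf

variable {V : Type*} {G : SimpleGraph V} {S I : Set V}

namespace Setup

/-- the parent of `v` (for `v ≠ u`) -/
noncomputable def par (h : Setup G S I) (u v : V) : V := h.hpath v u 1

/-- `c` is a child of `v` -/
def Child (h : Setup G S I) (u v c : V) : Prop := G.Adj v c ∧ c ∈ h.Sub u v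

/-- the part of the tree between `w` and `w'` -/
def Btw (h : Setup G S I) (w w' : V) : Set V := (HH S I \ h.Sub w w') \ h.Sub w' w

section
variable (h : Setup G S I) {u u' v w w' x y a b c c' : V}

theorem mem_sub : x ∈ h.Sub u v ↔ x ∈ HH S I ∧ v ∈ h.hseg u x := Iff.rfl

theorem mem_subO : x ∈ h.SubO u v ↔ x ∈ h.Sub u v ∧ x ≠ v := Iff.rfl

theorem mem_Btw : x ∈ h.Btw w w' ↔ x ∈ HH S I ∧ x ∉ h.Sub w w' ∧ x ∉ h.Sub w' w := by
  simp only [Btw, Set.mem_sdiff, and_assoc]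

theorem Btw_comm : h.Btw w w' = h.Btw w' w := by
  ext x
  simp only [mem_Btw]
  tauto

theorem sub_subset_H : h.Sub u v ⊆ HH S I := fun _ hx => hx.1

theorem subO_subset_sub : h.SubO u v ⊆ h.Sub u v := Set.sdiff_subset

theorem subO_subset_H : h.SubO u v ⊆ HH S I := fun _ hx => hx.1.1

theorem Btw_subset_H : h.Btw w w' ⊆ HH S I := fun _ hx => hx.1.1

theorem not_mem_subO_self : v ∉ h.SubO u v := fun hc => hc.2 rfl

theorem top_mem_H (hu : u ∈ HH S I) (hx : x ∈ h.Sub u v) : v ∈ HH S I :=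
  h.hseg_subset_H hu hx.1 hx.2

theorem self_mem_sub (hu : u ∈ HH S I) (hv : v ∈ HH S I) : v ∈ h.Sub u v :=
  ⟨hv, h.right_mem_hseg hu hv⟩

theorem insert_subO (hu : u ∈ HH S I) (hv : v ∈ HH S I) : insert v (h.SubO u v) = h.Sub u v := by
  rw [SubO, Set.insert_sdiff_singleton, Set.insert_eq_of_mem (h.self_mem_sub hu hv)]

theorem sub_root (hu : u ∈ HH S I) : h.Sub u u = HH S I :=
  Set.Subset.antisymm h.sub_subset_H fun _ hx => ⟨hx, h.left_mem_hseg hu hx⟩

theorem root_mem_sub_iff (hu : u ∈ HH S I) : u ∈ h.Sub u v ↔ v = u := by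
  rw [mem_sub, h.hseg_self hu]
  exact ⟨fun a => a.2, fun a => ⟨hu, a⟩⟩

theorem root_not_mem_sub (hu : u ∈ HH S I) (hne : v ≠ u) : u ∉ h.Sub u v :=
  fun hc => hne ((h.root_mem_sub_iff hu).1 hc)

theorem sub_trans (hu : u ∈ HH S I) (hx : x ∈ h.Sub u v) : h.Sub u x ⊆ h.Sub u v := fun _ hy =>
  ⟨hy.1, h.hseg_subset_hseg hu hy.1 (h.left_mem_hseg hu hy.1) hy.2 hx.2⟩

/-! ### depth -/

theorem depth_add (hu : u ∈ HH S I) (hx : x ∈ h.Sub u v) :
    h.hlen u x = h.hlen u v + h.hlen v x := (h.hseg_split hu hx.1 hx.2).1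

theorem mem_sub_iff_depth (hu : u ∈ HH S I) (hv : v ∈ HH S I) (hx : x ∈ HH S I) :
    x ∈ h.Sub u v ↔ h.hlen u x = h.hlen u v + h.hlen v x := by
  rw [mem_sub, h.mem_hseg_iff_hlen hu hv hx]
  exact and_iff_right hx

theorem depth_le (hu : u ∈ HH S I) (hx : x ∈ h.Sub u v) : h.hlen u v ≤ h.hlen u x := by
  have := h.depth_add hu hx
  omega

theorem depth_lt (hu : u ∈ HH S I) (hx : x ∈ h.SubO u v) : h.hlen u v < h.hlen u x := by
  have h1 := h.depth_add hu hx.1
  have h2 := h.hlen_pos (h.top_mem_H hu hx.1) hx.1.1 (fun e => hx.2 e.symm)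
  omega

theorem eq_of_depth_le (hu : u ∈ HH S I) (hx : x ∈ h.Sub u v) (hd : h.hlen u x ≤ h.hlen u v) :
    x = v := by
  by_contra hne
  exact absurd (h.depth_lt hu ⟨hx, hne⟩) (not_lt.2 hd)

theorem mem_subO_of_depth_lt (hx : x ∈ h.Sub u v) (hd : h.hlen u v < h.hlen u x) :
    x ∈ h.SubO u v := ⟨hx, fun e => by rw [Set.mem_singleton_iff.1 e] at hd; omega⟩

theorem not_mem_sub_of_depth_lt (hu : u ∈ HH S I) (hd : h.hlen u x < h.hlen u v) :
    x ∉ h.Sub u v := fun hc => absurd (h.depth_le hu hc) (not_le.2 hd)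

theorem sub_antisymm (hu : u ∈ HH S I) (hx : x ∈ h.Sub u v) (hv : v ∈ h.Sub u x) : x = v :=
  h.eq_of_depth_le hu hx (h.depth_le hu hv)

theorem not_mem_sub_of_mem_subO (hu : u ∈ HH S I) (hx : x ∈ h.SubO u v) : v ∉ h.Sub u x :=
  h.not_mem_sub_of_depth_lt hu (h.depth_lt hu hx)

theorem sub_subset_subO (hu : u ∈ HH S I) (hx : x ∈ h.SubO u v) : h.Sub u x ⊆ h.SubO u v :=
  fun _ hy => h.mem_subO_of_depth_lt (h.sub_trans hu hx.1 hy)
    ((h.depth_lt hu hx).trans_le (h.depth_le hu hy))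

theorem subO_subset_subO (hu : u ∈ HH S I) (hx : x ∈ h.Sub u v) : h.SubO u x ⊆ h.SubO u v :=
  fun _ hy => h.mem_subO_of_depth_lt (h.sub_trans hu hx hy.1)
    ((h.depth_le hu hx).trans_lt (h.depth_lt hu hy))

/-- if `a` is not deeper than `x` and `x` is not below `a`, then `a` is not below `x` -/
theorem not_mem_sub_of_depth_le (hu : u ∈ HH S I) (hd : h.hlen u a ≤ h.hlen u x)
    (hx : x ∉ h.Sub u a) : a ∉ h.Sub u x := by
  intro hc
  have := h.eq_of_depth_le hu hc hd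
  subst this
  exact hx hc

/-- two ancestors of a vertex are ordered by depth -/
theorem mem_sub_of_depth_le (hu : u ∈ HH S I) (ha : x ∈ h.Sub u a) (hb : x ∈ h.Sub u b)
    (hd : h.hlen u a ≤ h.hlen u b) : b ∈ h.Sub u a := by
  obtain ⟨-, a2⟩ := h.hpath_hlen_of_mem hu ha.1 ha.2
  obtain ⟨b1, b2⟩ := h.hpath_hlen_of_mem hu hb.1 hb.2
  refine ⟨h.top_mem_H hu hb, ?_⟩
  have := (h.hpath_sub_left hu hb.1 b1).2.2
  rw [b2] at this
  rw [this]
  exact ⟨_, Nat.zero_le _, hd, a2⟩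

theorem sub_total (hu : u ∈ HH S I) (ha : x ∈ h.Sub u a) (hb : x ∈ h.Sub u b) :
    b ∈ h.Sub u a ∨ a ∈ h.Sub u b := by
  rcases le_total (h.hlen u a) (h.hlen u b) with hd | hd
  · exact Or.inl (h.mem_sub_of_depth_le hu ha hb hd)
  · exact Or.inr (h.mem_sub_of_depth_le hu hb ha hd)

theorem anc_eq_of_depth_eq (hu : u ∈ HH S I) (ha : x ∈ h.Sub u a) (hb : x ∈ h.Sub u b)
    (hd : h.hlen u a = h.hlen u b) : a = b :=
  h.sub_antisymm hu (h.mem_sub_of_depth_le hu hb ha hd.ge) (h.mem_sub_of_depth_le hu ha hb hd.le)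

/-- the ancestor of `x` at depth `i` -/
theorem hpath_anc (hu : u ∈ HH S I) (hx : x ∈ HH S I) {i : ℕ} (hi : i ≤ h.hlen u x) :
    x ∈ h.Sub u (h.hpath u x i) ∧ h.hlen u (h.hpath u x i) = i :=
  ⟨⟨hx, h.hpath_mem_hseg hi⟩, (h.hpath_sub_left hu hx hi).1⟩

/-- of two adjacent vertices one is below the other -/
theorem adj_mem_sub (hu : u ∈ HH S I) (hx : x ∈ HH S I) (hy : y ∈ HH S I) (e : G.Adj x y) :
    y ∈ h.Sub u x ∨ x ∈ h.Sub u y := by
  rw [h.mem_sub_iff_depth hu hx hy, h.mem_sub_iff_depth hu hy hx, (h.hlen_eq_one_iff hx hy).2 e,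
    (h.hlen_eq_one_iff hy hx).2 e.symm]
  exact h.hlen_adj hu hx hy e

theorem disjoint_sub (hu : u ∈ HH S I) (hab : a ∉ h.Sub u b) (hba : b ∉ h.Sub u a) :
    Disjoint (h.Sub u a) (h.Sub u b) :=
  Set.disjoint_left.2 fun _ ha hb => (h.sub_total hu ha hb).elim hba hab

/-- incomparable vertices have anticomplete subtrees -/
theorem anti_sub (hu : u ∈ HH S I) (hab : a ∉ h.Sub u b) (hba : b ∉ h.Sub u a) :
    Anti G (h.Sub u a) (h.Sub u b) := by
  have hd := Set.disjoint_left.1 (h.disjoint_sub hu hab hba)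
  intro x hx y hy
  refine ⟨fun e => hd hx (e ▸ hy), fun e => ?_⟩
  rcases h.adj_mem_sub hu hx.1 hy.1 e with h1 | h1
  · exact hd (h.sub_trans hu hx h1) hy
  · exact hd hx (h.sub_trans hu hy h1)

/-! ### paths and connectivity -/

theorem hseg_subset_sub (hu : u ∈ HH S I) (hx : x ∈ h.Sub u v) : h.hseg v x ⊆ h.Sub u v := by
  intro y hy
  have hv := h.top_mem_H hu hx
  have hyH := h.hseg_subset_H hv hx.1 hy
  have h1 := h.depth_add hu hx
  have h2 := (h.hseg_split hv hx.1 hy).1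
  have h3 := h.hlen_triangle hu hv hyH
  have h4 := h.hlen_triangle hu hyH hx.1
  rw [h.mem_sub_iff_depth hu hv hyH]
  omega

/-- the vertices of the path from `v` down to `x` are ancestors of `x` -/
theorem mem_sub_of_mem_hseg (hu : u ∈ HH S I) (hx : x ∈ h.Sub u v) (hy : y ∈ h.hseg v x) :
    x ∈ h.Sub u y :=
  ⟨hx.1, h.hseg_subset_hseg hu hx.1 hx.2 (h.right_mem_hseg hu hx.1) hy⟩

theorem mem_hseg_iff_sub (hu : u ∈ HH S I) (hx : x ∈ h.Sub u v) :
    y ∈ h.hseg v x ↔ y ∈ h.Sub u v ∧ x ∈ h.Sub u y := by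
  refine ⟨fun hy => ⟨h.hseg_subset_sub hu hx hy, h.mem_sub_of_mem_hseg hu hx hy⟩, ?_⟩
  rintro ⟨h1, h2⟩
  have a1 := h.depth_add hu hx
  have a2 := h.depth_add hu h1
  have a3 := h.depth_add hu h2
  rw [h.mem_hseg_iff_hlen (h.top_mem_H hu hx) h1.1 hx.1]
  omega

theorem conn_of_hseg {T : Set V} (hT : T ⊆ HH S I) (ha : a ∈ T) (hc : ∀ x ∈ T, h.hseg a x ⊆ T) :
    Conn G T :=
  conn_of_root ha fun x hx => ((h.conn_hseg (hT ha) (hT hx)).rin (h.left_mem_hseg (hT ha) (hT hx))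
    (h.right_mem_hseg (hT ha) (hT hx))).mono (hc x hx)

theorem conn_sub (hu : u ∈ HH S I) (hv : v ∈ HH S I) : Conn G (h.Sub u v) :=
  h.conn_of_hseg h.sub_subset_H (h.self_mem_sub hu hv) fun _ hx => h.hseg_subset_sub hu hx

theorem hseg_subset_sub' (hu : u ∈ HH S I) (hx : x ∈ h.Sub u v) (hy : y ∈ h.Sub u v) :
    h.hseg x y ⊆ h.Sub u v :=
  h.hseg_subset (h.conn_sub hu (h.top_mem_H hu hx)) h.sub_subset_H hx hy

/-- a subtree minus any family of subtrees not containing its top is connected -/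
theorem conn_sub_diff_iUnion (hu : u ∈ HH S I) (ha : a ∈ HH S I) {X : Set V}
    (hX : ∀ v ∈ X, a ∉ h.Sub u v) : Conn G (h.Sub u a \ ⋃ v ∈ X, h.Sub u v) := by
  refine h.conn_of_hseg (fun _ hx => hx.1.1) (a := a) ⟨h.self_mem_sub hu ha, by simpa using hX⟩ ?_
  rintro x ⟨x1, x2⟩ y hy
  refine ⟨h.hseg_subset_sub hu x1 hy, fun hc => x2 ?_⟩
  simp only [Set.mem_iUnion] at hc ⊢
  obtain ⟨v, hv, hc⟩ := hc
  exact ⟨v, hv, h.sub_trans hu hc (h.mem_sub_of_mem_hseg hu x1 hy)⟩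

theorem conn_sub_diff (hu : u ∈ HH S I) (ha : a ∈ HH S I) (hv : a ∉ h.Sub u v) :
    Conn G (h.Sub u a \ h.Sub u v) := by
  have := h.conn_sub_diff_iUnion hu ha (X := {v}) (by simpa using hv)
  simpa using this

theorem conn_sub_diff_two (hu : u ∈ HH S I) (ha : a ∈ HH S I) (hv : a ∉ h.Sub u v)
    (hw : a ∉ h.Sub u w) : Conn G (h.Sub u a \ (h.Sub u v ∪ h.Sub u w)) := by
  have := h.conn_sub_diff_iUnion hu ha (X := {v, w}) (by simpa using ⟨hv, hw⟩)
  simpa using this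

theorem conn_compl_sub (hu : u ∈ HH S I) (hv : v ≠ u) : Conn G (HH S I \ h.Sub u v) := by
  have := h.conn_sub_diff hu hu (h.root_not_mem_sub hu hv)
  rwa [h.sub_root hu] at this

theorem conn_compl_sub_two (hu : u ∈ HH S I) (hv : v ≠ u) (hw : w ≠ u) :
    Conn G (HH S I \ (h.Sub u v ∪ h.Sub u w)) := by
  have := h.conn_sub_diff_two hu hu (h.root_not_mem_sub hu hv) (h.root_not_mem_sub hu hw)
  rwa [h.sub_root hu] at this

theorem compl_sub_eq_comp (hu : u ∈ HH S I) :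
    HH S I \ h.Sub u v = comp G (HH S I \ {v}) u := by
  ext x
  constructor
  · rintro ⟨x1, x2⟩
    exact (h.mem_comp_iff hu x1).2 fun hc => x2 ⟨x1, hc⟩
  · intro hx
    have x1 := (comp_subset _ _ hx).1
    exact ⟨x1, fun hc => (h.mem_comp_iff hu x1).1 hx hc.2⟩

theorem sub_eq_compl_comp (hu : u ∈ HH S I) :
    h.Sub u v = HH S I \ comp G (HH S I \ {v}) u := by
  rw [← h.compl_sub_eq_comp hu, Set.sdiff_sdiff_cancel_left h.sub_subset_H]

/-- a path from outside a subtree to its inside passes through the top -/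
theorem top_mem_hseg (hu : u ∈ HH S I) (hx : x ∈ h.Sub u v) (hy : y ∈ HH S I)
    (hy' : y ∉ h.Sub u v) : v ∈ h.hseg y x := by
  rcases h.hseg_subset_union hu hy hx.1 hx.2 with h1 | h1
  · exact (hy' ⟨hy, h1⟩).elim
  · exact h1

/-- a connected subset of the tree meeting a subtree and its complement contains the top -/
theorem top_mem_of_conn (hu : u ∈ HH S I) {T : Set V} (hT : Conn G T) (hTH : T ⊆ HH S I)
    (hx : x ∈ T) (hy : y ∈ T) (hx' : x ∈ h.Sub u v) (hy' : y ∉ h.Sub u v) : v ∈ T :=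
  h.hseg_subset hT hTH hy hx (h.top_mem_hseg hu hx' (hTH hy) hy')

/-- change of root -/
theorem sub_eq_of_root (hu : u ∈ HH S I) (hu' : u' ∈ HH S I) (hv : u' ∉ h.Sub u v) :
    h.Sub u' v = h.Sub u v := by
  have : u' ∈ comp G (HH S I \ {v}) u := by
    rw [← h.compl_sub_eq_comp hu]
    exact ⟨hu', hv⟩
  rw [h.sub_eq_compl_comp hu, h.sub_eq_compl_comp hu', comp_eq_of_mem this]

theorem subO_eq_of_root (hu : u ∈ HH S I) (hu' : u' ∈ HH S I) (hv : u' ∉ h.Sub u v) :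
    h.SubO u' v = h.SubO u v := by
  rw [SubO, SubO, h.sub_eq_of_root hu hu' hv]

theorem mem_sub_comm (hu : u ∈ HH S I) (hu' : u' ∈ HH S I) :
    u' ∈ h.Sub u v ↔ u ∈ h.Sub u' v := by
  rw [mem_sub, mem_sub, h.hseg_symm hu hu']
  tauto

/-! ### children and parents -/

theorem Child.adj {h : Setup G S I} (hc : h.Child u v c) : G.Adj v c := hc.1

theorem Child.mem_sub {h : Setup G S I} (hc : h.Child u v c) : c ∈ h.Sub u v := hc.2

theorem Child.mem_H {h : Setup G S I} (hc : h.Child u v c) : c ∈ HH S I := hc.2.1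

theorem Child.mem_subO {h : Setup G S I} (hc : h.Child u v c) : c ∈ h.SubO u v :=
  ⟨hc.2, hc.1.ne'⟩

theorem Child.depth {h : Setup G S I} (hu : u ∈ HH S I) (hc : h.Child u v c) :
    h.hlen u c = h.hlen u v + 1 := by
  rw [h.depth_add hu hc.2, (h.hlen_eq_one_iff (h.top_mem_H hu hc.2) hc.2.1).2 hc.1]

theorem Child.ne_root {h : Setup G S I} (hu : u ∈ HH S I) (hc : h.Child u v c) : c ≠ u := by
  rintro rfl
  have := hc.depth hu
  rw [h.hlen_self hu] at this
  omega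

theorem child_of_depth (hu : u ∈ HH S I) (hc : c ∈ h.Sub u v) (hd : h.hlen u c = h.hlen u v + 1) :
    h.Child u v c := by
  have := h.depth_add hu hc
  exact ⟨(h.hlen_eq_one_iff (h.top_mem_H hu hc) hc.1).1 (by omega), hc⟩

theorem child_root (hu : u ∈ HH S I) (hc : c ∈ HH S I) (e : G.Adj u c) : h.Child u u c :=
  ⟨e, by rw [h.sub_root hu]; exact hc⟩

theorem adj_child (hu : u ∈ HH S I) (hx : x ∈ HH S I) (hy : y ∈ HH S I) (e : G.Adj x y) :
    h.Child u x y ∨ h.Child u y x :=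
  (h.adj_mem_sub hu hx hy e).imp (fun a => ⟨e, a⟩) fun a => ⟨e.symm, a⟩

theorem Child.sub_subset {h : Setup G S I} (hu : u ∈ HH S I) (hc : h.Child u v c) :
    h.Sub u c ⊆ h.SubO u v := h.sub_subset_subO hu hc.mem_subO

theorem Child.not_mem {h : Setup G S I} (hu : u ∈ HH S I) (hc : h.Child u v c) :
    v ∉ h.Sub u c := h.not_mem_sub_of_mem_subO hu hc.mem_subO

theorem Child.sees {h : Setup G S I} (hu : u ∈ HH S I) (hc : h.Child u v c) :
    Sees G v (h.Sub u c) := ⟨c, h.self_mem_sub hu hc.mem_H, hc.1⟩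

/-- the parent is unique -/
theorem Child.par_unique {h : Setup G S I} (hu : u ∈ HH S I) (hc : h.Child u v c)
    (hc' : h.Child u w c) : v = w := by
  have h1 := hc.depth hu
  have h2 := hc'.depth hu
  exact h.anc_eq_of_depth_eq hu hc.2 hc'.2 (by omega)

/-- the child towards a given descendant is unique -/
theorem Child.eq_of_mem {h : Setup G S I} (hu : u ∈ HH S I) (hc : h.Child u v c)
    (hc' : h.Child u v c') (hx : x ∈ h.Sub u c) (hx' : x ∈ h.Sub u c') : c = c' :=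
  h.anc_eq_of_depth_eq hu hx hx' ((hc.depth hu).trans (hc'.depth hu).symm)

theorem Child.anti {h : Setup G S I} (hu : u ∈ HH S I) (hc : h.Child u v c)
    (hc' : h.Child u v c') (hne : c ≠ c') : Anti G (h.Sub u c) (h.Sub u c') :=
  h.anti_sub hu (fun a => hne (hc.eq_of_mem hu hc' (h.self_mem_sub hu hc.mem_H) a))
    fun a => hne (hc.eq_of_mem hu hc' a (h.self_mem_sub hu hc'.mem_H))

/-- a proper ancestor of a child of `v` is an ancestor of `v` -/
theorem Child.mem_sub_of_ne {h : Setup G S I} (hu : u ∈ HH S I) (hc : h.Child u v c)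
    (ha : c ∈ h.Sub u a) (hne : c ≠ a) : v ∈ h.Sub u a := by
  have h1 := hc.depth hu
  have h2 := h.depth_lt hu ⟨ha, hne⟩
  exact h.mem_sub_of_depth_le hu ha hc.2 (by omega)

/-- a proper descendant of `v` that is an ancestor of a vertex below the child `c` is below `c` -/
theorem Child.mem_sub_of_anc {h : Setup G S I} (hu : u ∈ HH S I) (hc : h.Child u v c)
    (hx : x ∈ h.Sub u c) (hy : y ∈ h.SubO u v) (hxy : x ∈ h.Sub u y) : y ∈ h.Sub u c := by
  have h1 := hc.depth hu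
  have h2 := h.depth_lt hu hy
  exact h.mem_sub_of_depth_le hu hx hxy (by omega)

/-- the child of `v` towards a proper descendant -/
theorem child_hpath (hu : u ∈ HH S I) (hx : x ∈ h.SubO u v) :
    h.Child u v (h.hpath v x 1) ∧ x ∈ h.Sub u (h.hpath v x 1) := by
  have hv := h.top_mem_H hu hx.1
  have hne : v ≠ x := fun e => hx.2 e.symm
  have h1 := (h.hpath_one_mem hv hx.1.1 hne).1
  exact ⟨⟨h.adj_hpath_one hv hx.1.1 hne, h.hseg_subset_sub hu hx.1 h1⟩,
    h.mem_sub_of_mem_hseg hu hx.1 h1⟩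

theorem exists_child (hu : u ∈ HH S I) (hx : x ∈ h.SubO u v) :
    ∃ c, h.Child u v c ∧ x ∈ h.Sub u c := ⟨_, h.child_hpath hu hx⟩

theorem mem_subO_iff_child (hu : u ∈ HH S I) :
    x ∈ h.SubO u v ↔ ∃ c, h.Child u v c ∧ x ∈ h.Sub u c :=
  ⟨h.exists_child hu, fun ⟨_, hc, hx⟩ => hc.sub_subset hu hx⟩

theorem par_child (hu : u ∈ HH S I) (hv : v ∈ HH S I) (hne : v ≠ u) : h.Child u (h.par u v) v :=
  ⟨(h.adj_hpath_one hv hu hne).symm, hv, h.hseg_symm hv hu ▸ (h.hpath_one_mem hv hu hne).1⟩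

theorem par_mem_H (hu : u ∈ HH S I) (hv : v ∈ HH S I) (hne : v ≠ u) : h.par u v ∈ HH S I :=
  h.top_mem_H hu (h.par_child hu hv hne).2

theorem adj_par (hu : u ∈ HH S I) (hv : v ∈ HH S I) (hne : v ≠ u) : G.Adj v (h.par u v) :=
  (h.par_child hu hv hne).1.symm

theorem par_not_mem (hu : u ∈ HH S I) (hv : v ∈ HH S I) (hne : v ≠ u) : h.par u v ∉ h.Sub u v :=
  (h.par_child hu hv hne).not_mem hu

theorem par_depth (hu : u ∈ HH S I) (hv : v ∈ HH S I) (hne : v ≠ u) :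
    h.hlen u v = h.hlen u (h.par u v) + 1 := (h.par_child hu hv hne).depth hu

theorem Child.par_eq {h : Setup G S I} (hu : u ∈ HH S I) (hc : h.Child u v c) : h.par u c = v :=
  (h.par_child hu hc.mem_H (hc.ne_root hu)).par_unique hu hc

theorem par_mem_sub (hu : u ∈ HH S I) (hx : x ∈ h.SubO u v) : h.par u x ∈ h.Sub u v := by
  have hne : x ≠ u := by
    rintro rfl
    exact hx.2 ((h.root_mem_sub_iff hu).1 hx.1).symm
  exact (h.par_child hu hx.1.1 hne).mem_sub_of_ne hu hx.1 hx.2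

theorem sees_compl_sub (hu : u ∈ HH S I) (hv : v ∈ HH S I) (hne : v ≠ u) :
    Sees G v (HH S I \ h.Sub u v) :=
  ⟨_, ⟨h.par_mem_H hu hv hne, h.par_not_mem hu hv hne⟩, h.adj_par hu hv hne⟩

/-- a neighbour in the tree is a child or the parent -/
theorem nbr_cases (hu : u ∈ HH S I) (hv : v ∈ HH S I) (hy : y ∈ HH S I) (e : G.Adj v y) :
    h.Child u v y ∨ (v ≠ u ∧ y = h.par u v) :=
  (h.adj_child hu hv hy e).imp id fun a => ⟨a.ne_root hu, (a.par_eq hu).symm⟩

/-- the only edge leaving a subtree joins its top to the parent -/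
theorem edge_out (hu : u ∈ HH S I) (hx : x ∈ h.Sub u v) (hy : y ∈ HH S I) (hy' : y ∉ h.Sub u v)
    (e : G.Adj x y) : x = v ∧ h.Child u y v := by
  rcases h.adj_child hu hx.1 hy e with hc | hc
  · exact (hy' (h.sub_trans hu hx hc.2)).elim
  · by_cases hne : x = v
    · exact ⟨hne, hne ▸ hc⟩
    · exact (hy' (hc.mem_sub_of_ne hu hx hne)).elim

theorem anti_subO_compl (hu : u ∈ HH S I) : Anti G (h.SubO u v) (HH S I \ h.Sub u v) :=
  fun _ hx _ hy => ⟨fun e => hy.2 (e ▸ hx.1), fun e => hx.2 (h.edge_out hu hx.1 hy.1 hy.2 e).1⟩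

/-- a vertex outside a subtree is anticomplete to the proper descendants of its top -/
theorem anti_single_subO (hu : u ∈ HH S I) (hy : y ∈ HH S I) (hy' : y ∉ h.Sub u v) :
    Anti G {y} (h.SubO u v) :=
  (h.anti_subO_compl hu).symm.mono (Set.singleton_subset_iff.2 ⟨hy, hy'⟩) le_rfl

/-- a set outside a subtree and avoiding the parent of the top is anticomplete to the subtree -/
theorem anti_sub_of_not_child (hu : u ∈ HH S I) {T : Set V} (hT : T ⊆ HH S I)
    (h1 : ∀ y ∈ T, y ∉ h.Sub u v) (h2 : ∀ y ∈ T, ¬ h.Child u y v) : Anti G T (h.Sub u v) :=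
  fun y hy _ hx => ⟨fun e => h1 y hy (e ▸ hx),
    fun e => h2 y hy (h.edge_out hu hx (hT hy) (h1 y hy) e.symm).2⟩

theorem Child.anti_compl {h : Setup G S I} (hu : u ∈ HH S I) (hc : h.Child u v c) :
    Anti G (h.Sub u c) (HH S I \ h.Sub u v) := (h.anti_subO_compl hu).mono (hc.sub_subset hu) le_rfl

theorem Child.sub_eq_comp {h : Setup G S I} (hu : u ∈ HH S I) (hc : h.Child u v c) :
    h.Sub u c = comp G (HH S I \ {v}) c := by
  refine Set.Subset.antisymm ?_ ?_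
  · have hs : h.Sub u c ⊆ HH S I \ {v} := fun x hx => ⟨hx.1, (hc.sub_subset hu hx).2⟩
    exact (h.conn_sub hu hc.mem_H).subset_comp_of_mem hs (h.self_mem_sub hu hc.mem_H)
  · intro x hx
    refine hx.2.closed (p := fun z => z ∈ h.Sub u c) (h.self_mem_sub hu hc.mem_H) ?_
    intro s t hs e ht
    by_contra hn
    exact ht.2 ((h.edge_out hu hs ht.1 hn e).2.par_unique hu hc)

/-- the subtree of a child does not depend on the root: it is the subtree seen from the parent -/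
theorem Child.sub_eq_root {h : Setup G S I} (hu : u ∈ HH S I) (hc : h.Child u v c) :
    h.Sub v c = h.Sub u c :=
  h.sub_eq_of_root hu (h.top_mem_H hu hc.2) (hc.not_mem hu)

theorem Child.compl_sub {h : Setup G S I} (hu : u ∈ HH S I) (hc : h.Child u v c) :
    HH S I \ h.Sub u c = h.Sub c v := by
  have hv := h.top_mem_H hu hc.2
  rw [← hc.sub_eq_root hu, h.compl_sub_eq_comp hv,
    (h.child_root hc.mem_H hv hc.1.symm).sub_eq_comp hc.mem_H]

theorem compl_sub_eq_comp_par (hu : u ∈ HH S I) (hv : v ∈ HH S I) (hne : v ≠ u) :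
    HH S I \ h.Sub u v = comp G (HH S I \ {v}) (h.par u v) := by
  have : h.par u v ∈ comp G (HH S I \ {v}) u := by
    rw [← h.compl_sub_eq_comp hu]
    exact ⟨h.par_mem_H hu hv hne, h.par_not_mem hu hv hne⟩
  rw [comp_eq_of_mem this, h.compl_sub_eq_comp hu]

/-- the component of `x` in `H - u` is the subtree of a child of the root -/
theorem comp_root (hu : u ∈ HH S I) (hx : x ∈ HH S I) (hne : x ≠ u) :
    ∃ c, h.Child u u c ∧ x ∈ h.Sub u c ∧ comp G (HH S I \ {u}) x = h.Sub u c := by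
  obtain ⟨c, hc, hx'⟩ := h.exists_child hu (v := u) ⟨by rw [h.sub_root hu]; exact hx, hne⟩
  refine ⟨c, hc, hx', ?_⟩
  rw [hc.sub_eq_comp hu] at hx' ⊢
  exact comp_eq_of_mem hx'

theorem diff_single_eq (hu : u ∈ HH S I) (hv : v ∈ HH S I) :
    HH S I \ {v} = h.SubO u v ∪ (HH S I \ h.Sub u v) := by
  ext x
  constructor
  · rintro ⟨x1, x2⟩
    by_cases hx : x ∈ h.Sub u v
    · exact Or.inl ⟨hx, x2⟩
    · exact Or.inr ⟨x1, hx⟩
  · rintro (hx | hx)
    · exact ⟨hx.1.1, hx.2⟩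
    · exact ⟨hx.1, fun e => hx.2 ((Set.mem_singleton_iff.1 e).symm ▸ h.self_mem_sub hu hv)⟩

/-! ### colours -/

theorem Child.white_of_black {h : Setup G S I} (hc : h.Child u v c) (hv : v ∈ I \ S) :
    c ∈ S \ I := h.white_of_adj_black hv hc.mem_H hc.1

theorem Child.black_of_white {h : Setup G S I} (hc : h.Child u v c) (hv : v ∈ S \ I) :
    c ∈ I \ S := h.black_of_adj_white hv hc.mem_H hc.1

/-- a white vertex other than the root has exactly one child -/
theorem white_child_unique (hu : u ∈ HH S I) (hw : w ∈ S \ I) (hne : w ≠ u) (hc : h.Child u w c)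
    (hc' : h.Child u w c') : c = c' := by
  have hwH := white_mem_HH hw
  have hp := h.par_not_mem hu hwH hne
  rcases h.white_nbr_eq hw (a := c') (b := h.par u w) (fun e => hp (e ▸ hc'.2)) hc'.mem_H
    (h.par_mem_H hu hwH hne) hc'.1 (h.adj_par hu hwH hne) hc.mem_H hc.1 with e | e
  · exact e
  · exact (hp (e ▸ hc.2)).elim

theorem white_exists_child (hu : u ∈ HH S I) (hw : w ∈ S \ I) : ∃ c, h.Child u w c := by
  have hwH := white_mem_HH hw
  obtain ⟨a, b, hab, ha, hb, ea, eb, -⟩ := h.white_nbrs hw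
  rcases h.nbr_cases hu hwH (black_mem_HH ha) ea with h1 | h1
  · exact ⟨a, h1⟩
  · rcases h.nbr_cases hu hwH (black_mem_HH hb) eb with h2 | h2
    · exact ⟨b, h2⟩
    · exact (hab (h1.2.trans h2.2.symm)).elim

theorem white_subO_eq (hu : u ∈ HH S I) (hw : w ∈ S \ I) (hne : w ≠ u) (hc : h.Child u w c) :
    h.SubO u w = h.Sub u c := by
  refine Set.Subset.antisymm (fun x hx => ?_) (hc.sub_subset hu)
  obtain ⟨c', hc', hx'⟩ := h.exists_child hu hx
  exact h.white_child_unique hu hw hne hc' hc ▸ hx'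

theorem white_child (hu : u ∈ HH S I) (hw : w ∈ S \ I) (hne : w ≠ u) :
    ∃ c ∈ I \ S, h.Child u w c ∧ h.SubO u w = h.Sub u c := by
  obtain ⟨c, hc⟩ := h.white_exists_child hu hw
  exact ⟨c, hc.black_of_white hw, hc, h.white_subO_eq hu hw hne hc⟩

theorem conn_subO (hu : u ∈ HH S I) (hw : w ∈ S \ I) (hne : w ≠ u) : Conn G (h.SubO u w) := by
  obtain ⟨c, -, hc, e⟩ := h.white_child hu hw hne
  exact e ▸ h.conn_sub hu hc.mem_H

theorem sees_subO (hu : u ∈ HH S I) (hw : w ∈ S \ I) : Sees G w (h.SubO u w) := by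
  obtain ⟨c, hc⟩ := h.white_exists_child hu hw
  exact ⟨c, hc.mem_subO, hc.1⟩

/-- the components of `H - w` for a white `w` other than the root -/
theorem white_comp_of_mem_subO (hu : u ∈ HH S I) (hw : w ∈ S \ I) (hne : w ≠ u)
    (hx : x ∈ h.SubO u w) : comp G (HH S I \ {w}) x = h.SubO u w := by
  obtain ⟨c, -, hc, e⟩ := h.white_child hu hw hne
  rw [e, hc.sub_eq_comp hu] at hx ⊢
  exact comp_eq_of_mem hx

theorem comp_of_not_mem_sub (hu : u ∈ HH S I) (hx : x ∈ HH S I) (hx' : x ∉ h.Sub u v) :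
    comp G (HH S I \ {v}) x = HH S I \ h.Sub u v := by
  have : x ∈ comp G (HH S I \ {v}) u := h.compl_sub_eq_comp hu ▸ ⟨hx, hx'⟩
  rw [comp_eq_of_mem this, h.compl_sub_eq_comp hu]

/-- change of root across a white vertex -/
theorem white_compl_sub_root (hu : u ∈ HH S I) (hw : w ∈ S \ I) (hne : w ≠ u)
    (hu' : u' ∈ h.SubO u w) :
    HH S I \ h.Sub u' w = h.SubO u w ∧ h.SubO u' w = HH S I \ h.Sub u w := by
  have h1 : HH S I \ h.Sub u' w = h.SubO u w := by
    rw [h.compl_sub_eq_comp hu'.1.1, h.white_comp_of_mem_subO hu hw hne hu']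
  refine ⟨h1, ?_⟩
  have hwH := white_mem_HH hw
  ext x
  have e := Set.ext_iff.1 h1 x
  simp only [Set.mem_sdiff, mem_subO] at e ⊢
  have a1 : x ∈ h.Sub u' w → x ∈ HH S I := fun a => a.1
  have a2 : x ∈ h.Sub u w → x ∈ HH S I := fun a => a.1
  have a3 : x = w → x ∈ h.Sub u w := fun a => a.symm ▸ h.self_mem_sub hu hwH
  tauto

/-- the two subtrees at a white root -/
theorem white_root (hw : w ∈ S \ I) : ∃ a ∈ I \ S, ∃ b ∈ I \ S, a ≠ b ∧ h.Child w w a ∧
    h.Child w w b ∧ Anti G (h.Sub w a) (h.Sub w b) ∧ h.Sub w a ∪ h.Sub w b = HH S I \ {w} := by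
  have hwH := white_mem_HH hw
  obtain ⟨a, b, hab, ha, hb, ea, eb, -, h1, h2⟩ := h.white_split hw
  have ca := h.child_root hwH (black_mem_HH ha) ea
  have cb := h.child_root hwH (black_mem_HH hb) eb
  exact ⟨a, ha, b, hb, hab, ca, cb, ca.anti hwH cb hab, by
    rw [ca.sub_eq_comp hwH, cb.sub_eq_comp hwH, h2]⟩

theorem white_root_cover (hw : w ∈ S \ I) (ha : h.Child w w a) (hb : h.Child w w b)
    (hab : a ≠ b) : h.Sub w a ∪ h.Sub w b = HH S I \ {w} := by
  have hwH := white_mem_HH hw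
  rw [ha.sub_eq_comp hwH, hb.sub_eq_comp hwH]
  exact h.white_cover hw hab ha.mem_H hb.mem_H ha.1 hb.1

/-- a vertex other than the root with two children is black -/
theorem black_of_two_children (hu : u ∈ HH S I) (hne : v ≠ u) (hc : h.Child u v c)
    (hc' : h.Child u v c') (hcc : c ≠ c') : v ∈ I \ S :=
  (h.top_mem_H hu hc.2).resolve_right fun hw => hcc (h.white_child_unique hu hw hne hc hc')

/-- (WH) a white among `v` and its child towards `x` -/
theorem exists_white_anc (hu : u ∈ HH S I) (hx : x ∈ h.SubO u v) :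
    ∃ o ∈ S \ I, (o = v ∨ h.Child u v o) ∧ o ∈ h.Sub u v ∧ x ∈ h.Sub u o ∧
      h.hlen u o ≤ h.hlen u v + 1 := by
  have hv := h.top_mem_H hu hx.1
  rcases hv with hb | hw
  · obtain ⟨c, hc, hx'⟩ := h.exists_child hu hx
    exact ⟨c, hc.white_of_black hb, Or.inr hc, hc.2, hx', (hc.depth hu).le⟩
  · exact ⟨v, hw, Or.inl rfl, h.self_mem_sub hu (white_mem_HH hw), hx.1, by omega⟩

/-- a black among `v` and its parent -/
theorem exists_black_anc (hu : u ∈ HH S I) (hv : v ∈ HH S I) (hne : v ≠ u) :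
    ∃ d ∈ I \ S, (d = v ∨ h.Child u d v) ∧ v ∈ h.Sub u d ∧ h.hlen u v ≤ h.hlen u d + 1 := by
  rcases hv with hb | hw
  · exact ⟨v, hb, Or.inl rfl, h.self_mem_sub hu (black_mem_HH hb), by omega⟩
  · have hc := h.par_child hu (white_mem_HH hw) hne
    exact ⟨_, h.black_of_adj_white hw (h.top_mem_H hu hc.2) hc.1.symm, Or.inr hc, hc.2,
      (hc.depth hu).le⟩

/-! ### least common ancestors -/

theorem exists_lca (hu : u ∈ HH S I) (ha : a ∈ HH S I) (hb : b ∈ HH S I) :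
    ∃ m, a ∈ h.Sub u m ∧ b ∈ h.Sub u m ∧ m ∈ h.hseg a b ∧
      ∀ m', a ∈ h.Sub u m' → b ∈ h.Sub u m' → m ∈ h.Sub u m' := by
  obtain ⟨m, h1, h2, h3, -⟩ := h.exists_median hu ha hb
  exact ⟨m, ⟨ha, h1⟩, ⟨hb, h2⟩, h3, fun m' a1 a2 => h.hseg_subset_sub' hu a1 a2 h3⟩

/-- incomparable vertices lie below different children of their least common ancestor -/
theorem exists_fork (hu : u ∈ HH S I) (ha : a ∈ HH S I) (hb : b ∈ HH S I) (hab : a ∉ h.Sub u b)
    (hba : b ∉ h.Sub u a) : ∃ m ca cb, h.Child u m ca ∧ h.Child u m cb ∧ ca ≠ cb ∧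
      a ∈ h.Sub u ca ∧ b ∈ h.Sub u cb ∧ m ∈ h.hseg a b ∧
      ∀ m', a ∈ h.Sub u m' → b ∈ h.Sub u m' → m ∈ h.Sub u m' := by
  obtain ⟨m, h1, h2, h3, h4⟩ := h.exists_lca hu ha hb
  obtain ⟨ca, c1, c2⟩ := h.exists_child hu ⟨h1, fun e => hba (Set.mem_singleton_iff.1 e ▸ h2)⟩
  obtain ⟨cb, c3, c4⟩ := h.exists_child hu ⟨h2, fun e => hab (Set.mem_singleton_iff.1 e ▸ h1)⟩
  refine ⟨m, ca, cb, c1, c3, ?_, c2, c4, h3, h4⟩
  rintro rfl
  exact c1.not_mem hu (h4 ca c2 c4)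

/-- vertices below different children are joined through the common parent -/
theorem mem_hseg_of_fork (hu : u ∈ HH S I) (hc : h.Child u v c) (hc' : h.Child u v c')
    (hne : c ≠ c') (ha : a ∈ h.Sub u c) (hb : b ∈ h.Sub u c') : v ∈ h.hseg a b := by
  rw [hc.sub_eq_comp hu] at ha
  rw [hc'.sub_eq_comp hu] at hb
  exact h.mem_hseg_of_comp_nbr (h.top_mem_H hu hc.2) hc.1 hc'.1 hne ha hb

/-- a vertex that is not an ancestor of `b` lies in a branch leaving the path from the root to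
`b`; the branch starts at a white vertex unless it leaves at `b` or at the root -/
theorem exists_branch_off (hu : u ∈ HH S I) (ha : a ∈ HH S I) (hb : b ∈ HH S I)
    (hba : b ∉ h.Sub u a) : ∃ m c, b ∈ h.Sub u m ∧ h.Child u m c ∧ a ∈ h.Sub u c ∧
      b ∉ h.Sub u c ∧ (m ≠ b → m ≠ u → m ∈ I \ S ∧ c ∈ S \ I) := by
  obtain ⟨m, h1, h2, -, h4⟩ := h.exists_lca hu ha hb
  obtain ⟨c, c1, c2⟩ := h.exists_child hu ⟨h1, fun e => hba (Set.mem_singleton_iff.1 e ▸ h2)⟩
  have hbc : b ∉ h.Sub u c := fun hc => c1.not_mem hu (h4 c c2 hc)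
  refine ⟨m, c, h2, c1, c2, hbc, fun e1 e2 => ?_⟩
  obtain ⟨c', c3, c4⟩ := h.exists_child hu ⟨h2, fun e => e1 (Set.mem_singleton_iff.1 e).symm⟩
  have := h.black_of_two_children hu e2 c1 c3 fun e => hbc (e ▸ c4)
  exact ⟨this, c1.white_of_black this⟩

/-! ### the part between two vertices -/

theorem Btw_eq_inter : h.Btw w w' = (HH S I \ h.Sub w w') ∩ (HH S I \ h.Sub w' w) := by
  ext x
  simp only [mem_Btw, Set.mem_inter_iff, Set.mem_sdiff]
  tauto

theorem inner_subset_Btw (hw : w ∈ HH S I) (hw' : w' ∈ HH S I) :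
    h.hseg w w' \ {w, w'} ⊆ h.Btw w w' := by
  rintro x ⟨x1, x2⟩
  have hx := h.hseg_subset_H hw hw' x1
  refine h.mem_Btw.2 ⟨hx, fun hc => x2 (Or.inr ?_), fun hc => x2 (Or.inl ?_)⟩
  · exact h.sub_antisymm hw hc ⟨hw', x1⟩
  · exact h.sub_antisymm hw' hc ⟨hw, h.hseg_symm hw hw' ▸ x1⟩

theorem hpath_one_mem_Btw (hw : w ∈ HH S I) (hw' : w' ∈ HH S I) (hne : w ≠ w')
    (hna : ¬ G.Adj w w') : h.hpath w w' 1 ∈ h.Btw w w' := by
  have h1 := h.hpath_one_mem hw hw' hne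
  refine h.inner_subset_Btw hw hw' ⟨h1.1, ?_⟩
  rintro (e | e)
  · exact h1.2 e
  · exact hna (Set.mem_singleton_iff.1 e ▸ h.adj_hpath_one hw hw' hne)

theorem sees_Btw_left (hw : w ∈ HH S I) (hw' : w' ∈ HH S I) (hne : w ≠ w')
    (hna : ¬ G.Adj w w') : Sees G w (h.Btw w w') :=
  ⟨_, h.hpath_one_mem_Btw hw hw' hne hna, h.adj_hpath_one hw hw' hne⟩

theorem sees_Btw_right (hw : w ∈ HH S I) (hw' : w' ∈ HH S I) (hne : w ≠ w')
    (hna : ¬ G.Adj w w') : Sees G w' (h.Btw w w') :=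
  h.Btw_comm ▸ h.sees_Btw_left hw' hw hne.symm fun e => hna e.symm

theorem conn_Btw (hw : w ∈ HH S I) (hw' : w' ∈ HH S I) (hne : w ≠ w') (hna : ¬ G.Adj w w') :
    Conn G (h.Btw w w') := by
  have := h.hpath_one_mem_Btw hw hw' hne hna
  rw [Btw_eq_inter] at this ⊢
  exact h.conn_inter (h.conn_compl_sub hw hne.symm) (h.conn_compl_sub hw' hne) Set.sdiff_subset
    Set.sdiff_subset ⟨_, this⟩

theorem left_not_mem_Btw (hw : w ∈ HH S I) (hw' : w' ∈ HH S I) : w ∉ h.Btw w w' :=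
  fun hc => hc.2 (h.self_mem_sub hw' hw)

theorem right_not_mem_Btw (hw : w ∈ HH S I) (hw' : w' ∈ HH S I) : w' ∉ h.Btw w w' :=
  fun hc => hc.1.2 (h.self_mem_sub hw hw')

theorem anti_Btw_right (hw : w ∈ HH S I) : Anti G (h.Btw w w') (h.SubO w w') :=
  (h.anti_subO_compl hw).symm.mono Set.sdiff_subset le_rfl

theorem anti_Btw_left (hw' : w' ∈ HH S I) : Anti G (h.Btw w w') (h.SubO w' w) :=
  h.Btw_comm ▸ h.anti_Btw_right hw'

/-- the part between `w` and `w'` is a component of `H - w - w'` -/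
theorem Btw_eq_comp (hw : w ∈ HH S I) (hw' : w' ∈ HH S I) (hx : x ∈ h.Btw w w') :
    comp G (HH S I \ {w, w'}) x = h.Btw w w' := by
  have hxH := h.Btw_subset_H hx
  ext y
  by_cases hy : y ∈ HH S I
  · rw [h.mem_comp_iff_disjoint hxH hy, Set.disjoint_insert_right, Set.disjoint_singleton_right,
      mem_Btw, ← h.sub_eq_of_root hw hxH hx.1.2, ← h.sub_eq_of_root hw' hxH hx.2, mem_sub, mem_sub]
    tauto
  · exact ⟨fun a => (hy (comp_subset _ _ a).1).elim, fun a => (hy (h.Btw_subset_H a)).elim⟩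

/-- the part between `v` and a descendant `w` below the child `c` -/
theorem Child.Btw_eq {h : Setup G S I} (hu : u ∈ HH S I) (hc : h.Child u v c)
    (hw : w ∈ h.Sub u c) : h.Btw v w = h.Sub u c \ h.Sub u w := by
  have hv := h.top_mem_H hu hc.2
  have h1 : HH S I \ h.Sub w v = h.Sub u c := by
    rw [h.compl_sub_eq_comp hw.1, hc.sub_eq_comp hu]
    exact comp_eq_of_mem (hc.sub_eq_comp hu ▸ hw)
  rw [Btw_eq_inter, h1,
    h.sub_eq_of_root hu hv (h.not_mem_sub_of_mem_subO hu (hc.sub_subset hu hw))]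
  ext x
  exact ⟨fun a => ⟨a.2, a.1.2⟩, fun a => ⟨⟨a.1.1, a.2⟩, a.1⟩⟩

theorem white_Btw_eq (hu : u ∈ HH S I) (hv : v ∈ S \ I) (hne : v ≠ u) (hw : w ∈ h.SubO u v) :
    h.Btw v w = h.SubO u v \ h.Sub u w := by
  obtain ⟨c, -, hc, e⟩ := h.white_child hu hv hne
  rw [e] at hw ⊢
  exact hc.Btw_eq hu hw

end

end Setup

/-- the four pieces `B₁ - w₁ - B₂ - w₂ - B₃ - w₃ - B₄` into which three vertices cut `H` -/
structure Pieces (G : SimpleGraph V) (H : Set V) (w₁ w₂ w₃ : V) (B₁ B₂ B₃ B₄ : Set V) : Prop where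
  c1 : Conn G B₁
  c2 : Conn G B₂
  c3 : Conn G B₃
  c4 : Conn G B₄
  a12 : Anti G B₁ B₂
  a13 : Anti G B₁ B₃
  a14 : Anti G B₁ B₄
  a23 : Anti G B₂ B₃
  a24 : Anti G B₂ B₄
  a34 : Anti G B₃ B₄
  s11 : Sees G w₁ B₁
  s12 : Sees G w₁ B₂
  s22 : Sees G w₂ B₂
  s23 : Sees G w₂ B₃
  s33 : Sees G w₃ B₃
  s34 : Sees G w₃ B₄
  j1 : Anti G {w₁} (B₃ ∪ B₄)
  j2 : Anti G {w₂} (B₁ ∪ B₄)
  j3 : Anti G {w₃} (B₁ ∪ B₂)
  w12 : Anti G {w₁} {w₂}
  w13 : Anti G {w₁} {w₃}
  w23 : Anti G {w₂} {w₃}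
  cover : B₁ ∪ B₂ ∪ B₃ ∪ B₄ = H \ {w₁, w₂, w₃}

namespace Setup

/-- three whites, the middle one taken as the root -/
theorem pieces_root (h : Setup G S I) {u w₁ w₃ a b : V} (hu : u ∈ S \ I) (h1 : w₁ ∈ S \ I)
    (h3 : w₃ ∈ S \ I) (ha : h.Child u u a) (hb : h.Child u u b) (hab : a ≠ b)
    (m1 : w₁ ∈ h.Sub u a) (m3 : w₃ ∈ h.Sub u b) :
    Pieces G (HH S I) w₁ u w₃ (h.SubO u w₁) (h.Sub u a \ h.Sub u w₁) (h.Sub u b \ h.Sub u w₃)
      (h.SubO u w₃) := by
  have huH := white_mem_HH hu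
  have h1H := white_mem_HH h1
  have h3H := white_mem_HH h3
  have n1 : w₁ ≠ u := (ha.sub_subset huH m1).2
  have n3 : w₃ ≠ u := (hb.sub_subset huH m3).2
  have hA := ha.anti huH hb hab
  have s1 : h.SubO u w₁ ⊆ h.Sub u a := h.subO_subset_sub.trans (h.sub_trans huH m1)
  have s3 : h.SubO u w₃ ⊆ h.Sub u b := h.subO_subset_sub.trans (h.sub_trans huH m3)
  have e1 := ha.Btw_eq huH m1
  have e3 := hb.Btw_eq huH m3
  have na1 := h.white_not_adj hu h1
  have na3 := h.white_not_adj hu h3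
  refine
    { c1 := h.conn_subO huH h1 n1
      c2 := e1 ▸ h.conn_Btw huH h1H n1.symm na1
      c3 := e3 ▸ h.conn_Btw huH h3H n3.symm na3
      c4 := h.conn_subO huH h3 n3
      a12 := e1 ▸ (h.anti_Btw_right huH).symm
      a13 := hA.mono s1 Set.sdiff_subset
      a14 := hA.mono s1 s3
      a23 := hA.mono Set.sdiff_subset Set.sdiff_subset
      a24 := hA.mono Set.sdiff_subset s3
      a34 := e3 ▸ h.anti_Btw_right huH
      s11 := h.sees_subO huH h1
      s12 := e1 ▸ h.sees_Btw_right huH h1H n1.symm na1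
      s22 := e1 ▸ h.sees_Btw_left huH h1H n1.symm na1
      s23 := e3 ▸ h.sees_Btw_left huH h3H n3.symm na3
      s33 := e3 ▸ h.sees_Btw_right huH h3H n3.symm na3
      s34 := h.sees_subO huH h3
      j1 := hA.mono (Set.singleton_subset_iff.2 m1) (Set.union_subset Set.sdiff_subset s3)
      j2 := (h.anti_single_subO huH huH (h.root_not_mem_sub huH n1)).union_right
        (h.anti_single_subO huH huH (h.root_not_mem_sub huH n3))
      j3 := hA.symm.mono (Set.singleton_subset_iff.2 m3) (Set.union_subset s1 Set.sdiff_subset)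
      w12 := anti_singleton_singleton.2 ⟨n1, h.white_not_adj h1 hu⟩
      w13 := hA.mono (Set.singleton_subset_iff.2 m1) (Set.singleton_subset_iff.2 m3)
      w23 := anti_singleton_singleton.2 ⟨n3.symm, na3⟩
      cover := ?_ }
  ext x
  have c := Set.ext_iff.1 (h.white_root_cover hu ha hb hab) x
  have t1 : x ∈ h.Sub u w₁ → x ∈ h.Sub u a := fun q => h.sub_trans huH m1 q
  have t3 : x ∈ h.Sub u w₃ → x ∈ h.Sub u b := fun q => h.sub_trans huH m3 q
  have t4 : x ∈ h.Sub u a → x ∉ h.Sub u b := fun q => hA.notMem q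
  have t5 : x = w₁ → x ∈ h.Sub u w₁ := fun q => q.symm ▸ h.self_mem_sub huH h1H
  have t6 : x = w₃ → x ∈ h.Sub u w₃ := fun q => q.symm ▸ h.self_mem_sub huH h3H
  simp only [Set.mem_union, Set.mem_sdiff, mem_subO, Set.mem_insert_iff,
    Set.mem_singleton_iff] at c ⊢
  tauto

/-- three whites with the middle one on the path between the other two -/
theorem pieces_btw (h : Setup G S I) {u w₁ w₃ : V} (hu : u ∈ S \ I) (h1 : w₁ ∈ S \ I)
    (h3 : w₃ ∈ S \ I) (n1 : w₁ ≠ u) (n3 : w₃ ≠ u) (hm : u ∈ h.hseg w₁ w₃) :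
    Pieces G (HH S I) w₁ u w₃ (h.SubO u w₁) (h.Btw u w₁) (h.Btw u w₃) (h.SubO u w₃) := by
  have huH := white_mem_HH hu
  have h1H := white_mem_HH h1
  have h3H := white_mem_HH h3
  obtain ⟨a, ha, m1, -⟩ := h.comp_root huH h1H n1
  obtain ⟨b, hb, m3, -⟩ := h.comp_root huH h3H n3
  rw [ha.Btw_eq huH m1, hb.Btw_eq huH m3]
  refine h.pieces_root hu h1 h3 ha hb ?_ m1 m3
  rintro rfl
  exact ha.not_mem huH (h.hseg_subset_sub' huH m1 m3 hm)

/-- three whites on a descending path below the root `r` -/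
theorem pieces_chain (h : Setup G S I) {r w₁ w₂ w₃ : V} (hr : r ∈ HH S I) (h1 : w₁ ∈ S \ I)
    (h2 : w₂ ∈ S \ I) (h3 : w₃ ∈ S \ I) (n1 : w₁ ≠ r) (m2 : w₂ ∈ h.SubO r w₁)
    (m3 : w₃ ∈ h.SubO r w₂) :
    Pieces G (HH S I) w₁ w₂ w₃ (HH S I \ h.Sub r w₁) (h.SubO r w₁ \ h.Sub r w₂)
      (h.SubO r w₂ \ h.Sub r w₃) (h.SubO r w₃) := by
  have n2 : w₂ ≠ r := by
    rintro rfl
    exact h.root_not_mem_sub hr n1 m2.1
  have := h.pieces_btw h2 h1 h3 (fun e => m2.2 e.symm) m3.2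
    ((h.mem_hseg_iff_sub hr (h.sub_trans hr m2.1 m3.1)).2 ⟨m2.1, m3.1⟩)
  rw [(h.white_compl_sub_root hr h1 n1 m2).2, h.Btw_comm (w := w₂), h.white_Btw_eq hr h1 n1 m2,
    h.white_Btw_eq hr h2 n2 m3,
    h.subO_eq_of_root hr (white_mem_HH h2) (h.not_mem_sub_of_mem_subO hr m3)] at this
  exact this

/-! ### a balanced white vertex -/

/-- without a star every black vertex has few marked neighbours in the tree -/
theorem NoStar.card_nbr_lt {h : Setup G S I} {M : Finset V} {a : ℕ} (hno : h.NoStar M a)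
    (hM : (M : Set V) ⊆ HH S I) {x : V} (hx : x ∈ I \ S) {M' : Finset V} (h1 : M' ⊆ M)
    (h2 : ∀ p ∈ M', G.Adj x p) : M'.card < a :=
  hno x hx M' h1 id (fun p hp => ⟨h.white_of_adj_black hx (hM (h1 hp)) (h2 p hp), h2 p hp,
    mem_comp_self (nbr_mem_diff (hM (h1 hp)) (h2 p hp))⟩) (Set.injOn_id _)

open Classical in
/-- without a star, the proper descendants of a black vertex carry few marks if every child
subtree does -/
theorem NoStar.card_subO_le {h : Setup G S I} {M : Finset V} {a m : ℕ} (hno : h.NoStar M a)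
    {u v : V} (hu : u ∈ HH S I) (hv : v ∈ I \ S)
    (hm : ∀ c, h.Child u v c → (M.filter (· ∈ h.Sub u c)).card ≤ m) :
    (M.filter (· ∈ h.SubO u v)).card ≤ (a - 1) * m := by
  set M₁ := M.filter (· ∈ h.SubO u v) with hM₁
  have hc : ∀ p ∈ M₁, h.Child u v (h.hpath v p 1) ∧ p ∈ h.Sub u (h.hpath v p 1) := fun p hp =>
    h.child_hpath hu (Finset.mem_filter.1 hp).2
  obtain ⟨t, t1, t2, t3⟩ := Finset.exists_subset_injOn_image_eq_of_surjOn
    (f := fun p => h.hpath v p 1) (M₁ : Set V) (M₁.image fun p => h.hpath v p 1) (by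
      intro z hz
      simpa using hz)
  have t1' : t ⊆ M₁ := Finset.coe_subset.1 t1
  have hlt := hno v hv t (t1'.trans (Finset.filter_subset _ _)) _ (fun p hp =>
    ⟨(hc p (t1' hp)).1.white_of_black hv, (hc p (t1' hp)).1.1,
      (hc p (t1' hp)).1.sub_eq_comp hu ▸ (hc p (t1' hp)).2⟩) t2
  rw [← Finset.card_image_of_injOn t2, t3] at hlt
  have := Finset.card_le_mul_card_image (f := fun p => h.hpath v p 1) M₁ m (by
    intro z hz
    obtain ⟨p, hp, rfl⟩ := Finset.mem_image.1 hz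
    refine le_trans (Finset.card_le_card fun q hq => ?_) (hm _ (hc p hp).1)
    rw [Finset.mem_filter] at hq ⊢
    exact ⟨(Finset.mem_filter.1 hq.1).1, hq.2 ▸ (hc q hq.1).2⟩)
  rw [mul_comm]
  exact this.trans (Nat.mul_le_mul_left _ (by omega))

open Classical in
/-- without a star there is a white vertex with many marks on both sides -/
theorem exists_balanced [Finite V] (h : Setup G S I) {M : Finset V} {a m : ℕ}
    (hM : (M : Set V) ⊆ HH S I) (hno : h.NoStar M a) (hc : (a + 1) * m + 2 ≤ M.card) :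
    ∃ p ∈ S \ I, ∃ y ∈ I \ S, ∃ y' ∈ I \ S, y ≠ y' ∧ h.Child p p y ∧ h.Child p p y' ∧
      m ≤ (M.filter (· ∈ h.Sub p y)).card ∧ m ≤ (M.filter (· ∈ h.Sub p y')).card := by
  obtain ⟨u, hub⟩ : ∃ u, u ∈ I \ S := by
    obtain ⟨u, hu | hu⟩ := h.conn.nonempty
    · exact ⟨u, hu⟩
    · obtain ⟨a, -, -, ha, -⟩ := h.white_nbrs hu
      exact ⟨a, ha⟩
  have hu := black_mem_HH hub
  have hall : M.filter (· ∈ h.Sub u u) = M :=
    Finset.filter_true_of_mem fun p hp => by rw [h.sub_root hu]; exact hM hp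
  rw [add_mul, one_mul] at hc
  obtain ⟨v, ⟨hv, hv1⟩, hmax⟩ := Set.exists_max_image
    {v | v ∈ HH S I ∧ m + 1 ≤ (M.filter (· ∈ h.Sub u v)).card} (h.hlen u) (Set.toFinite _)
    ⟨u, hu, by rw [hall]; omega⟩
  have hch : ∀ c, h.Child u v c → (M.filter (· ∈ h.Sub u c)).card ≤ m := by
    intro c hc'
    by_contra hlt
    have := hmax c ⟨hc'.mem_H, by omega⟩
    have := hc'.depth hu
    omega
  have hins : ∀ z, (M.filter (· ∈ h.Sub u z)).card ≤ (M.filter (· ∈ h.SubO u z)).card + 1 := by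
    intro z
    refine le_trans (Finset.card_le_card fun q hq => ?_) (Finset.card_insert_le z _)
    rw [Finset.mem_insert, Finset.mem_filter]
    rw [Finset.mem_filter] at hq
    by_cases e : q = z
    · exact Or.inl e
    · exact Or.inr ⟨hq.1, hq.2, e⟩
  -- a white `p` with child `c` whose subtree has a moderate number of marks
  obtain ⟨p, hp, c, hpc, l1, l2⟩ : ∃ p ∈ S \ I, ∃ c, h.Child u p c ∧
      m ≤ (M.filter (· ∈ h.Sub u c)).card ∧ (M.filter (· ∈ h.Sub u c)).card + m + 1 ≤ M.card := by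
    rcases hv with hb | hw
    · have h1 := hno.card_subO_le hu hb hch
      have h2 := hins v
      have h3 : (a - 1) * m ≤ a * m := Nat.mul_le_mul_right _ (Nat.sub_le _ _)
      have hne : v ≠ u := by
        rintro rfl
        rw [hall] at h2
        omega
      have hpc := h.par_child hu (black_mem_HH hb) hne
      exact ⟨_, h.white_of_adj_black hb (h.top_mem_H hu hpc.2) hpc.1.symm, v, hpc, by omega,
        by omega⟩
    · obtain ⟨c, -, hc', e⟩ := h.white_child hu hw (black_ne_white hub hw).symm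
      have h2 := hins v
      have h3 := hch c hc'
      rw [e] at h2
      have h4 : 0 < a := lt_of_le_of_lt (Nat.zero_le _)
        (hno u hub ∅ (Finset.empty_subset _) id (by simp) (by simp))
      have h5 : 1 * m ≤ a * m := Nat.mul_le_mul_right _ h4
      exact ⟨v, hw, c, hc', by omega, by omega⟩
  have hpH := white_mem_HH hp
  obtain ⟨b, hcb, hb, eb, -⟩ := h.white_other hp hpc.mem_H hpc.1
  have cc := h.child_root hpH hpc.mem_H hpc.1
  have cb := h.child_root hpH (black_mem_HH hb) eb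
  refine ⟨p, hp, c, hpc.black_of_white hp, b, hb, hcb, cc, cb, by rwa [hpc.sub_eq_root hu], ?_⟩
  rw [← hpc.sub_eq_root hu] at l2
  have : M.card ≤ (insert p (M.filter (· ∈ h.Sub p c) ∪ M.filter (· ∈ h.Sub p b))).card := by
    refine Finset.card_le_card fun q hq => ?_
    rw [Finset.mem_insert, Finset.mem_union, Finset.mem_filter, Finset.mem_filter]
    by_cases e : q = p
    · exact Or.inl e
    · have : q ∈ h.Sub p c ∪ h.Sub p b := h.white_root_cover hp cc cb hcb ▸ ⟨hM hq, e⟩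
      exact Or.inr (this.imp (fun z => ⟨hq, z⟩) fun z => ⟨hq, z⟩)
  have h6 := Finset.card_insert_le p (M.filter (· ∈ h.Sub p c) ∪ M.filter (· ∈ h.Sub p b))
  have h7 := Finset.card_union_le (M.filter (· ∈ h.Sub p c)) (M.filter (· ∈ h.Sub p b))
  omega

/-! ### the two sides of a white vertex -/

section sides
variable {h : Setup G S I} {u r w a b x y v g o : V} {L R : Set V}

theorem Sides.symm (s : h.Sides u L R) : h.Sides u R L :=
  ⟨s.white, s.cR, s.cL, s.anti.symm, (Set.union_comm _ _).trans s.cover⟩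

theorem Sides.uH (s : h.Sides u L R) : u ∈ HH S I := white_mem_HH s.white

theorem Sides.subset_diff (s : h.Sides u L R) : L ⊆ HH S I \ {u} :=
  s.cover ▸ Set.subset_union_left

theorem Sides.subset_H (s : h.Sides u L R) : L ⊆ HH S I := fun _ hx => (s.subset_diff hx).1

theorem Sides.ne (s : h.Sides u L R) (hx : x ∈ L) : x ≠ u := (s.subset_diff hx).2

theorem Sides.not_mem (s : h.Sides u L R) : u ∉ L := fun hc => s.ne hc rfl

theorem Sides.not_mem_right (s : h.Sides u L R) (hx : x ∈ L) : x ∉ R := s.anti.notMem hx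

theorem Sides.mem_or (s : h.Sides u L R) (hx : x ∈ HH S I) (hne : x ≠ u) : x ∈ L ∨ x ∈ R := by
  have : x ∈ L ∪ R := s.cover ▸ ⟨hx, hne⟩
  exact this

theorem Sides.mem_cases (s : h.Sides u L R) (hx : x ∈ HH S I) : x = u ∨ x ∈ L ∨ x ∈ R := by
  by_cases e : x = u
  · exact Or.inl e
  · exact Or.inr (s.mem_or hx e)

theorem Sides.comp_eq (s : h.Sides u L R) (hx : x ∈ L) : comp G (HH S I \ {u}) x = L := by
  refine Set.Subset.antisymm ?_ (s.cL.subset_comp_of_mem s.subset_diff hx)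
  rcases (conn_comp (s.subset_diff hx)).subset_or s.anti (s.cover ▸ comp_subset _ _) with e | e
  · exact e
  · exact (s.not_mem_right hx (e (mem_comp_self (s.subset_diff hx)))).elim

/-- a connected subset of the tree avoiding `u` and meeting `L` lies in `L` -/
theorem Sides.conn_subset (s : h.Sides u L R) {T : Set V} (hT : Conn G T) (hTH : T ⊆ HH S I)
    (hu : u ∉ T) (hx : x ∈ T) (hx' : x ∈ L) : T ⊆ L := by
  rw [← s.comp_eq hx']
  have hs : T ⊆ HH S I \ {u} := fun y hy => ⟨hTH hy, fun e => hu (e ▸ hy)⟩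
  exact hT.subset_comp_of_mem hs hx

/-- the root of the side `L` -/
theorem Sides.exists_root (s : h.Sides u L R) :
    ∃ c ∈ I \ S, h.Child u u c ∧ c ∈ L ∧ L = h.Sub u c := by
  obtain ⟨x, hx⟩ := s.cL.nonempty
  obtain ⟨c, hc, -, e⟩ := h.comp_root s.uH (s.subset_H hx) (s.ne hx)
  rw [s.comp_eq hx] at e
  exact ⟨c, hc.black_of_white s.white, hc, e ▸ h.self_mem_sub s.uH hc.mem_H, e⟩

theorem Sides.eq_sub_of_adj (s : h.Sides u L R) (hx : x ∈ L) (e : G.Adj u x) : L = h.Sub u x := by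
  rw [(h.child_root s.uH (s.subset_H hx) e).sub_eq_comp s.uH, s.comp_eq hx]

theorem Sides.sees (s : h.Sides u L R) : Sees G u L := by
  obtain ⟨c, -, hc, hL, -⟩ := s.exists_root
  exact ⟨c, hL, hc.1⟩

theorem Sides.conn_insert (s : h.Sides u L R) : Conn G (insert u L) := s.cL.ins (Or.inr s.sees)

theorem Sides.hseg_subset (s : h.Sides u L R) (hx : x ∈ L) (hy : y ∈ L) : h.hseg x y ⊆ L :=
  h.hseg_subset s.cL s.subset_H hx hy

theorem Sides.hseg_root_subset (s : h.Sides u L R) (hx : x ∈ L) : h.hseg u x ⊆ insert u L :=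
  h.hseg_subset s.conn_insert (Set.insert_subset s.uH s.subset_H) (Or.inl rfl) (Or.inr hx)

theorem Sides.mem_hseg (s : h.Sides u L R) (ha : a ∈ L) (hb : b ∈ R) : u ∈ h.hseg a b := by
  rw [← h.comp_anti_iff (s.subset_diff ha) (s.symm.subset_diff hb), s.comp_eq ha, s.symm.comp_eq hb]
  exact s.anti

theorem Sides.hseg_eq (s : h.Sides u L R) (ha : a ∈ L) (hb : b ∈ R) :
    h.hseg a b = h.hseg u a ∪ h.hseg u b := by
  rw [(h.hseg_split (s.subset_H ha) (s.symm.subset_H hb) (s.mem_hseg ha hb)).2.1,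
    h.hseg_symm (s.subset_H ha) s.uH]

theorem Sides.hlen_eq (s : h.Sides u L R) (ha : a ∈ L) (hb : b ∈ R) :
    h.hlen a b = h.hlen u a + h.hlen u b := by
  rw [(h.hseg_split (s.subset_H ha) (s.symm.subset_H hb) (s.mem_hseg ha hb)).1,
    h.hlen_symm (s.subset_H ha) s.uH]

theorem Sides.sub_subset (s : h.Sides u L R) (ha : a ∈ L) : h.Sub u a ⊆ L := by
  obtain ⟨c, -, -, -, e⟩ := s.exists_root
  rw [e] at ha ⊢
  exact h.sub_trans s.uH ha

theorem Sides.subO_subset (s : h.Sides u L R) (ha : a ∈ L) : h.SubO u a ⊆ L :=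
  h.subO_subset_sub.trans (s.sub_subset ha)

/-- an ancestor other than `u` of a vertex of `L` lies in `L` -/
theorem Sides.anc_mem (s : h.Sides u L R) (hx : x ∈ L) (hv : x ∈ h.Sub u v) (hne : v ≠ u) :
    v ∈ L := (s.hseg_root_subset hx hv.2).resolve_left hne

theorem Sides.not_mem_sub (s : h.Sides u L R) (ha : a ∈ L) (hb : b ∈ R) : b ∉ h.Sub u a :=
  fun hc => s.not_mem_right (s.sub_subset ha hc) hb

theorem Sides.u_not_mem_sub (s : h.Sides u L R) (ha : a ∈ L) : u ∉ h.Sub u a :=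
  h.root_not_mem_sub s.uH (s.ne ha)

/-- any root on the other side sees the same subtrees inside `L` -/
theorem Sides.sub_root_eq (s : h.Sides u L R) (ha : a ∈ L) (hb : b ∈ R) : h.Sub b a = h.Sub u a :=
  h.sub_eq_of_root s.uH (s.symm.subset_H hb) (s.not_mem_sub ha hb)

theorem Sides.subO_root_eq (s : h.Sides u L R) (ha : a ∈ L) (hb : b ∈ R) :
    h.SubO b a = h.SubO u a :=
  h.subO_eq_of_root s.uH (s.symm.subset_H hb) (s.not_mem_sub ha hb)

theorem Sides.compl_sub_eq (s : h.Sides u L R) (hb : b ∈ R) : HH S I \ h.Sub b u = R := by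
  rw [h.compl_sub_eq_comp (s.symm.subset_H hb), s.symm.comp_eq hb]

theorem Sides.eq_subO (s : h.Sides u L R) (hb : b ∈ R) : L = h.SubO b u := by
  have e := s.compl_sub_eq hb
  ext x
  constructor
  · intro hx
    refine ⟨?_, s.ne hx⟩
    by_contra hc
    exact s.not_mem_right hx (e ▸ ⟨s.subset_H hx, hc⟩)
  · intro hx
    refine (s.mem_or hx.1.1 hx.2).resolve_right fun hc => ?_
    rw [← e] at hc
    exact hc.2 hx.1

theorem Sides.unique {L' R' : Set V} (s : h.Sides u L R) (s' : h.Sides u L' R') (hx : x ∈ L)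
    (hx' : x ∈ L') : L = L' ∧ R = R' := by
  refine ⟨by rw [← s.comp_eq hx, s'.comp_eq hx'], ?_⟩
  rw [s.symm.eq_subO hx, s'.symm.eq_subO hx']

theorem sides_of_white (h : Setup G S I) (hr : r ∈ HH S I) (hw : w ∈ S \ I) (hne : w ≠ r) :
    h.Sides w (h.SubO r w) (HH S I \ h.Sub r w) :=
  ⟨hw, h.conn_subO hr hw hne, h.conn_compl_sub hr hne, h.anti_subO_compl hr,
    (h.diff_single_eq hr (white_mem_HH hw)).symm⟩

theorem sides_of_children (h : Setup G S I) (hw : w ∈ S \ I) (ha : h.Child w w a)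
    (hb : h.Child w w b) (hab : a ≠ b) : h.Sides w (h.Sub w a) (h.Sub w b) :=
  ⟨hw, h.conn_sub (white_mem_HH hw) ha.mem_H, h.conn_sub (white_mem_HH hw) hb.mem_H,
    ha.anti (white_mem_HH hw) hb hab, h.white_root_cover hw ha hb hab⟩

theorem exists_sides (h : Setup G S I) (hw : w ∈ S \ I) : ∃ L R, h.Sides w L R := by
  obtain ⟨a, -, b, -, hab, ha, hb, -⟩ := h.white_root hw
  exact ⟨_, _, h.sides_of_children hw ha hb hab⟩

theorem Sides.btw_eq (s : h.Sides u L R) (hg : g ∈ L) : h.Btw u g = L \ h.Sub u g := by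
  obtain ⟨c, -, hc, -, e⟩ := s.exists_root
  rw [e] at hg ⊢
  exact hc.Btw_eq s.uH hg

/-- a side minus a subtree that is not everything is connected -/
theorem Sides.conn_diff (s : h.Sides u L R) (hg : g ∈ L) (hna : ¬ G.Adj u g) :
    Conn G (L \ h.Sub u g) :=
  s.btw_eq hg ▸ h.conn_Btw s.uH (s.subset_H hg) (s.ne hg).symm hna

theorem Sides.conn_diff_white (s : h.Sides u L R) (hg : g ∈ L) (hw : g ∈ S \ I) :
    Conn G (L \ h.Sub u g) := s.conn_diff hg (h.white_not_adj s.white hw)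

theorem Sides.conn_diff_of_nonempty (s : h.Sides u L R) (hx : x ∈ L) (hx' : x ∉ h.Sub u g)
    (hg : g ≠ u) : Conn G (L \ h.Sub u g) := by
  have := h.conn_inter s.cL (h.conn_compl_sub s.uH hg) s.subset_H Set.sdiff_subset
    ⟨x, hx, s.subset_H hx, hx'⟩
  convert this using 1
  ext y
  exact ⟨fun a => ⟨a.1, s.subset_H a.1, a.2⟩, fun a => ⟨a.1, a.2.2⟩⟩

theorem Sides.u_sees_diff (s : h.Sides u L R) (hg : g ∈ L) (hna : ¬ G.Adj u g) :
    Sees G u (L \ h.Sub u g) :=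
  s.btw_eq hg ▸ h.sees_Btw_left s.uH (s.subset_H hg) (s.ne hg).symm hna

theorem Sides.sees_diff (s : h.Sides u L R) (hg : g ∈ L) (hna : ¬ G.Adj u g) :
    Sees G g (L \ h.Sub u g) :=
  s.btw_eq hg ▸ h.sees_Btw_right s.uH (s.subset_H hg) (s.ne hg).symm hna

theorem Sides.anti_diff (s : h.Sides u L R) : Anti G (h.SubO u g) (L \ h.Sub u g) :=
  (h.anti_subO_compl s.uH).mono le_rfl (Set.sdiff_subset_sdiff_left s.subset_H)

/-- the four pieces of (X) -/
theorem Sides.pieces {g' : V} (s : h.Sides u L R) (hg : g ∈ L) (hg' : g' ∈ R) (w1 : g ∈ S \ I)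
    (w2 : g' ∈ S \ I) :
    Pieces G (HH S I) g u g' (h.SubO u g) (L \ h.Sub u g) (R \ h.Sub u g') (h.SubO u g') := by
  rw [← s.btw_eq hg, ← s.symm.btw_eq hg']
  exact h.pieces_btw s.white w1 w2 (s.ne hg) (s.symm.ne hg') (s.mem_hseg hg hg')

/-- the sides of a white `g` inside `L` -/
theorem Sides.sides_inner (s : h.Sides u L R) (hg : g ∈ L) (hw : g ∈ S \ I) :
    h.Sides g (h.SubO u g) (insert u (L \ h.Sub u g) ∪ R) := by
  have := h.sides_of_white s.uH hw (s.ne hg)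
  convert this using 1
  ext y
  constructor
  · rintro ((rfl | a) | a)
    · exact ⟨s.uH, s.u_not_mem_sub hg⟩
    · exact ⟨s.subset_H a.1, a.2⟩
    · exact ⟨s.symm.subset_H a, s.not_mem_sub hg a⟩
  · rintro ⟨a1, a2⟩
    rcases s.mem_cases a1 with e | e | e
    · exact Or.inl (Or.inl e)
    · exact Or.inl (Or.inr ⟨e, a2⟩)
    · exact Or.inr e

theorem conn_subO_diff (h : Setup G S I) (hr : r ∈ HH S I) (hw : w ∈ S \ I) (hne : w ≠ r)
    (hv : v ∈ h.SubO r w) (hna : ¬ G.Adj w v) : Conn G (h.SubO r w \ h.Sub r v) :=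
  h.white_Btw_eq hr hw hne hv ▸
    h.conn_Btw (white_mem_HH hw) hv.1.1 (fun e => hv.2 e.symm) hna

theorem conn_subO_diff_white (h : Setup G S I) (hr : r ∈ HH S I) (hw : w ∈ S \ I) (hne : w ≠ r)
    (hv : v ∈ h.SubO r w) (hv' : v ∈ S \ I) : Conn G (h.SubO r w \ h.Sub r v) :=
  h.conn_subO_diff hr hw hne hv (h.white_not_adj hw hv')

/-- a vertex of `L` incomparable with `o` lies below a white of `L` that leaves the path to `o` -/
theorem Sides.off_path (s : h.Sides u L R) (hx : x ∈ L) (ho : o ∈ L) (h1 : o ∉ h.Sub u x)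
    (h2 : x ∉ h.Sub u o) : ∃ w ∈ L, w ∈ S \ I ∧ x ∈ h.Sub u w ∧
      Anti G (h.Sub u w) (h.Sub u o) ∧ o ∉ h.Sub u w ∧ w ∉ h.Sub u o ∧
      ∃ m ∈ I \ S, m ∈ L ∧ h.Child u m w ∧ o ∈ h.SubO u m := by
  obtain ⟨m, ca, cb, c1, c2, hne, a1, a2, a3, -⟩ :=
    h.exists_fork s.uH (s.subset_H hx) (s.subset_H ho) h2 h1
  have hm := s.hseg_subset hx ho a3
  have hb := h.black_of_two_children s.uH (s.ne hm) c1 c2 hne
  have hA := (c1.anti s.uH c2 hne).mono le_rfl (h.sub_trans s.uH a2)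
  exact ⟨ca, s.sub_subset hm c1.2, c1.white_of_black hb, a1, hA,
    fun hc => hA.notMem hc (h.self_mem_sub s.uH (s.subset_H ho)),
    fun hc => hA.notMem (h.self_mem_sub s.uH c1.mem_H) hc, m, hb, hm, c1, c2.sub_subset s.uH a2⟩

open Classical in
/-- a balanced white vertex, in terms of sides -/
theorem exists_balanced_sides [Finite V] (h : Setup G S I) {M : Finset V} {k m : ℕ}
    (hM : (M : Set V) ⊆ HH S I) (hno : h.NoStar M k) (hc : (k + 1) * m + 2 ≤ M.card) :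
    ∃ p A B y y', h.Sides p A B ∧ y ∈ I \ S ∧ y' ∈ I \ S ∧ G.Adj p y ∧ G.Adj p y' ∧ y ∈ A ∧
      y' ∈ B ∧ A = h.Sub p y ∧ B = h.Sub p y' ∧
      m ≤ (M.filter (· ∈ A)).card ∧ m ≤ (M.filter (· ∈ B)).card := by
  obtain ⟨p, hp, y, hy, y', hy', hne, c1, c2, l1, l2⟩ := h.exists_balanced hM hno hc
  exact ⟨p, _, _, y, y', h.sides_of_children hp c1 c2 hne, hy, hy', c1.1, c2.1,
    h.self_mem_sub (white_mem_HH hp) c1.mem_H, h.self_mem_sub (white_mem_HH hp) c2.mem_H, rfl, rfl,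
    l1, l2⟩

end sides

end Setup
end Pool.Agent.Ehf
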