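import Pool.Agent.MP_3ad207_lc.H46.Spec

/-! The tree API: `H = HH S I` induces a properly coloured tree; unique paths, medians,
components after deleting a vertex. -/

set_option autoImplicit false

namespace Pool.Agent.Ehf

variable {V : Type*} {G : SimpleGraph V} {S I : Set V}

/-! ### colours -/

theorem mem_HH {x : V} : x ∈ HH S I ↔ x ∈ I \ S ∨ x ∈ S \ I := Iff.rfl

theorem black_mem_HH {x : V} (hx : x ∈ I \ S) : x ∈ HH S I := Or.inl hx

theorem white_mem_HH {x : V} (hx : x ∈ S \ I) : x ∈ HH S I := Or.inr hx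

theorem black_subset_HH : I \ S ⊆ HH S I := fun _ hx => Or.inl hx

theorem white_subset_HH : S \ I ⊆ HH S I := fun _ hx => Or.inr hx

theorem not_white_of_black {x : V} (hx : x ∈ I \ S) : x ∉ S \ I := fun h => hx.2 h.1

theorem not_black_of_white {x : V} (hx : x ∈ S \ I) : x ∉ I \ S := fun h => h.2 hx.1

theorem black_ne_white {x y : V} (hx : x ∈ I \ S) (hy : y ∈ S \ I) : x ≠ y :=
  fun e => hx.2 (e ▸ hy.1)

theorem black_iff_not_white {x : V} (hx : x ∈ HH S I) : x ∈ I \ S ↔ x ∉ S \ I :=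
  ⟨not_white_of_black, fun h => hx.resolve_right h⟩

theorem white_iff_not_black {x : V} (hx : x ∈ HH S I) : x ∈ S \ I ↔ x ∉ I \ S :=
  ⟨not_black_of_white, fun h => hx.resolve_left h⟩

namespace Setup

theorem black_not_adj (h : Setup G S I) {x y : V} (hx : x ∈ I \ S) (hy : y ∈ I \ S) :
    ¬ G.Adj x y := h.stI x hx.1 y hy.1

theorem white_not_adj (h : Setup G S I) {x y : V} (hx : x ∈ S \ I) (hy : y ∈ S \ I) :
    ¬ G.Adj x y := h.stS x hx.1 y hy.1

theorem white_of_adj_black (h : Setup G S I) {x y : V} (hx : x ∈ I \ S) (hy : y ∈ HH S I)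
    (e : G.Adj x y) : y ∈ S \ I := hy.resolve_left fun h' => h.black_not_adj hx h' e

theorem black_of_adj_white (h : Setup G S I) {x y : V} (hx : x ∈ S \ I) (hy : y ∈ HH S I)
    (e : G.Adj x y) : y ∈ I \ S := hy.resolve_right fun h' => h.white_not_adj hx h' e

/-- adjacent vertices of `H` have different colours -/
theorem adj_colour (h : Setup G S I) {x y : V} (hx : x ∈ HH S I) (hy : y ∈ HH S I)
    (e : G.Adj x y) : (x ∈ I \ S ∧ y ∈ S \ I) ∨ (x ∈ S \ I ∧ y ∈ I \ S) := by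
  rcases hx with hx | hx
  · exact Or.inl ⟨hx, h.white_of_adj_black hx hy e⟩
  · exact Or.inr ⟨hx, h.black_of_adj_white hx hy e⟩

theorem adj_black_iff (h : Setup G S I) {x y : V} (hx : x ∈ HH S I) (hy : y ∈ HH S I)
    (e : G.Adj x y) : x ∈ I \ S ↔ y ∉ I \ S := by
  rcases h.adj_colour hx hy e with ⟨a, b⟩ | ⟨a, b⟩
  · exact ⟨fun _ => not_black_of_white b, fun _ => a⟩
  · exact ⟨fun c => (not_black_of_white a c).elim, fun c => (c b).elim⟩

theorem triFree (h : Setup G S I) : TriFree G (HH S I) := by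
  intro a ha b hb c hc e1 e2 e3
  have h1 := h.adj_black_iff ha hb e1
  have h2 := h.adj_black_iff ha hc e2
  have h3 := h.adj_black_iff hb hc e3
  tauto

/-- colours alternate along a walk inside `H` -/
theorem walk_colour (h : Setup G S I) {f : ℕ → V} {n : ℕ}
    (fa : ∀ i, i < n → G.Adj (f i) (f (i + 1))) (fH : ∀ i, i ≤ n → f i ∈ HH S I) {i : ℕ}
    (hi : i ≤ n) : f i ∈ I \ S ↔ (f 0 ∈ I \ S ↔ Even i) := by
  induction i with
  | zero => simp
  | succ i ih =>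
    have h1 := ih (by omega)
    have h2 := h.adj_black_iff (fH i (by omega)) (fH (i + 1) hi) (fa i (by omega))
    rw [Nat.even_add_one]
    tauto

/-- colours alternate along an induced path inside `H` -/
theorem ip_colour (h : Setup G S I) {f : ℕ → V} {n : ℕ} (hf : IsIP G f n)
    (fH : ∀ i, i ≤ n → f i ∈ HH S I) {i : ℕ} (hi : i ≤ n) :
    f i ∈ I \ S ↔ (f 0 ∈ I \ S ↔ Even i) :=
  h.walk_colour (f := f) (fun _ hj => hf.adj_succ hj) fH hi

theorem ip_colour_xor (h : Setup G S I) {f : ℕ → V} {n : ℕ} (hf : IsIP G f n)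
    (fH : ∀ i, i ≤ n → f i ∈ HH S I) {i : ℕ} (hi : i ≤ n) :
    f i ∈ I \ S ↔ Xor (f 0 ∈ I \ S) (Odd i) := by
  rw [h.ip_colour hf fH hi, ← Nat.not_even_iff_odd]
  unfold Xor
  tauto

/-- two positions of an induced path in `H` have the same colour iff they have the same parity -/
theorem ip_colour_two (h : Setup G S I) {f : ℕ → V} {n : ℕ} (hf : IsIP G f n)
    (fH : ∀ i, i ≤ n → f i ∈ HH S I) {i j : ℕ} (hi : i ≤ n) (hj : j ≤ n) :
    (f i ∈ I \ S ↔ f j ∈ I \ S) ↔ Even (i + j) := by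
  rw [h.ip_colour hf fH hi, h.ip_colour hf fH hj, Nat.even_add]
  tauto

/-! ### acyclicity -/

/-- a vertex of `H` outside a connected subset of `H` has at most one neighbour in it -/
theorem one_nbr (h : Setup G S I) {T : Set V} (hT : Conn G T) (hTH : T ⊆ HH S I) {x y y' : V}
    (hx : x ∈ HH S I) (hxT : x ∉ T) (hy : y ∈ T) (hy' : y' ∈ T) (e : G.Adj x y)
    (e' : G.Adj x y') : y = y' := by
  classical
  by_contra hne
  obtain ⟨n, f, hf, f0, fn, fT⟩ := hT.exists_ipc hy hy'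
  have hn : 0 < n := by
    rcases Nat.eq_zero_or_pos n with rfl | hn
    · exact (hne (f0.symm.trans fn)).elim
    · exact hn
  have hex : ∃ j, 0 < j ∧ j ≤ n ∧ G.Adj x (f j) := ⟨n, hn, le_rfl, fn ▸ e'⟩
  obtain ⟨j0, jn, ej⟩ := Nat.find_spec hex
  have hodd := h.ehf.sector_odd hf j0 jn (f0 ▸ e) ej (fun k k0 kj =>
    ⟨fun ee => hxT (ee ▸ fT k (by omega)), fun ee => Nat.find_min hex kj ⟨k0, by omega, ee⟩⟩)
  have fH : ∀ i, i ≤ n → f i ∈ HH S I := fun i hi => hTH (fT i hi)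
  have c1 := h.ip_colour hf fH jn
  have c2 := h.adj_black_iff hx (fH 0 (by omega)) (f0 ▸ e)
  have c3 := h.adj_black_iff hx (fH _ jn) ej
  rw [Nat.sub_zero, ← Nat.not_even_iff_odd] at hodd
  tauto

/-- no induced cycle inside `H` -/
theorem no_cyc (h : Setup G S I) {f : ℕ → V} {n : ℕ} (hn : 3 ≤ n) (hf : IsCyc G f n)
    (fH : ∀ i, i < n → f i ∈ HH S I) : False := by
  have hT : Conn G (seg f 1 (n - 1)) :=
    conn_seg_of_adj (by omega) fun k h1 hk => (hf k (k + 1) (by omega) (by omega)).2.2 (Or.inl rfl)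
  have := h.one_nbr hT (seg_subset fun k _ hk => fH k (by omega)) (fH 0 (by omega))
    (by
      rintro ⟨k, k1, k2, e⟩
      exact (hf 0 k (by omega) (by omega)).1 e.symm)
    (apply_mem_seg (k := 1) le_rfl (by omega)) (apply_mem_seg (k := n - 1) (by omega) le_rfl)
    ((hf 0 1 (by omega) (by omega)).2.2 (Or.inl rfl))
    ((hf 0 (n - 1) (by omega) (by omega)).2.2 (Or.inr ⟨rfl, by omega⟩))
  exact (hf 1 (n - 1) (by omega) (by omega)).1 this

/-- two induced paths inside `H` with the same ends agree -/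
theorem ip_unique (h : Setup G S I) {n : ℕ} : ∀ {f g : ℕ → V} {m : ℕ}, IsIP G f n → IsIP G g m →
    (∀ i, i ≤ n → f i ∈ HH S I) → (∀ i, i ≤ m → g i ∈ HH S I) → f 0 = g 0 → f n = g m →
    n = m ∧ ∀ i, i ≤ n → f i = g i := by
  induction n with
  | zero =>
    intro f g m hf hg fH gH e0 en
    have : 0 = m := hg.inj (Nat.zero_le _) le_rfl (e0.symm.trans en)
    refine ⟨this, fun i hi => ?_⟩
    obtain rfl : i = 0 := by omega
    exact e0
  | succ n ih =>
    intro f g m hf hg fH gH e0 en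
    rcases m with _ | m
    · have := hf.inj (Nat.zero_le _) le_rfl (e0.trans en.symm)
      omega
    have hT : Conn G (seg f 1 (n + 1) ∪ seg g 1 (m + 1)) :=
      (hf.conn_seg (by omega) le_rfl).un (hg.conn_seg (by omega) le_rfl)
        (Touch.of_mem (apply_mem_seg (k := n + 1) (by omega) le_rfl)
          (en ▸ apply_mem_seg (k := m + 1) (by omega) le_rfl))
    have e1 : f 1 = g 1 := by
      refine h.one_nbr hT (Set.union_subset (seg_subset fun k _ hk => fH k hk)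
        (seg_subset fun k _ hk => gH k hk)) (fH 0 (by omega)) ?_
        (Or.inl (apply_mem_seg le_rfl (by omega))) (Or.inr (apply_mem_seg le_rfl (by omega)))
        (hf.adj_succ (by omega)) (e0 ▸ hg.adj_succ (by omega))
      rintro (hc | hc)
      · have := (hf.mem_seg_iff le_rfl (Nat.zero_le _)).1 hc
        omega
      · rw [e0] at hc
        have := (hg.mem_seg_iff le_rfl (Nat.zero_le _)).1 hc
        omega
    have hf' : IsIP G (fun i => f (1 + i)) n := by simpa using hf.shift (a := 1) le_rfl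
    have hg' : IsIP G (fun i => g (1 + i)) m := by simpa using hg.shift (a := 1) le_rfl
    obtain ⟨a, b⟩ := ih hf' hg' (fun i hi => fH _ (by omega)) (fun i hi => gH _ (by omega))
      (by simpa using e1) (by simpa [add_comm] using en)
    refine ⟨by omega, fun i hi => ?_⟩
    rcases i with _ | i
    · exact e0
    · have := b i (by omega)
      simpa [add_comm] using this

/-- (5) uniqueness of the edge between two disjoint connected subsets of `H` -/
theorem edge_unique (h : Setup G S I) {T₁ T₂ : Set V} (h1 : Conn G T₁) (h2 : Conn G T₂)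
    (s1 : T₁ ⊆ HH S I) (s2 : T₂ ⊆ HH S I) (hd : Disjoint T₁ T₂) {x y x' y' : V} (hx : x ∈ T₁)
    (hy : y ∈ T₂) (hx' : x' ∈ T₁) (hy' : y' ∈ T₂) (e : G.Adj x y) (e' : G.Adj x' y') :
    x = x' ∧ y = y' := by
  have hx2 : x ∉ T₂ := Set.disjoint_left.1 hd hx
  have key : x = x' := by
    by_contra hne
    obtain ⟨n, f, hf, f0, fn, fT⟩ := h1.exists_ipc hx hx'
    have hn : 0 < n := by
      rcases Nat.eq_zero_or_pos n with rfl | hn
      · exact (hne (f0.symm.trans fn)).elim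
      · exact hn
    have hT : Conn G (seg f 1 n ∪ T₂) :=
      (hf.conn_seg hn le_rfl).un h2
        (Touch.of_adj (apply_mem_seg (k := n) hn le_rfl) hy' (fn ▸ e'))
    have := h.one_nbr hT (Set.union_subset (seg_subset fun k _ hk => s1 (fT k hk)) s2) (s1 hx)
      (by
        rintro (hc | hc)
        · rw [← f0] at hc
          have := (hf.mem_seg_iff le_rfl (Nat.zero_le _)).1 hc
          omega
        · exact hx2 hc)
      (Or.inl (apply_mem_seg (k := 1) le_rfl hn)) (Or.inr hy) (f0 ▸ hf.adj_succ hn) e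
    exact Set.disjoint_left.1 hd (fT 1 hn) (this ▸ hy)
  subst key
  exact ⟨rfl, h.one_nbr h2 s2 (s1 hx) hx2 hy hy' e e'⟩

/-- (5) two disjoint touching connected subsets of `H` are joined by exactly one edge -/
theorem exists_unique_edge (h : Setup G S I) {T₁ T₂ : Set V} (h1 : Conn G T₁) (h2 : Conn G T₂)
    (s1 : T₁ ⊆ HH S I) (s2 : T₂ ⊆ HH S I) (hd : Disjoint T₁ T₂) (ht : Touch G T₁ T₂) :
    ∃ x ∈ T₁, ∃ y ∈ T₂, G.Adj x y ∧
      ∀ x' ∈ T₁, ∀ y' ∈ T₂, G.Adj x' y' → x' = x ∧ y' = y := by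
  obtain ⟨x, hx, y, hy, e | e⟩ := ht
  · exact (Set.disjoint_left.1 hd hx (e ▸ hy)).elim
  · exact ⟨x, hx, y, hy, e, fun x' hx' y' hy' e' => h.edge_unique h1 h2 s1 s2 hd hx' hy' hx hy e' e⟩

/-- two disjoint connected subsets of `H - x`, both seen by `x`, are anticomplete -/
theorem anti_of_sees (h : Setup G S I) {T₁ T₂ : Set V} (h1 : Conn G T₁) (h2 : Conn G T₂)
    (s1 : T₁ ⊆ HH S I) (s2 : T₂ ⊆ HH S I) (hd : Disjoint T₁ T₂) {x : V} (hx : x ∈ HH S I)
    (x1 : x ∉ T₁) (x2 : x ∉ T₂) (v1 : Sees G x T₁) (v2 : Sees G x T₂) : Anti G T₁ T₂ := by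
  rw [← not_touch]
  intro ht
  obtain ⟨y, hy, e⟩ := v1
  obtain ⟨y', hy', e'⟩ := v2
  have := h.one_nbr (h1.un h2 ht) (Set.union_subset s1 s2) hx (fun hc => hc.elim x1 x2)
    (Or.inl hy) (Or.inr hy') e e'
  exact Set.disjoint_left.1 hd hy (this ▸ hy')

/-- three pairwise disjoint connected subsets of `H` do not touch pairwise -/
theorem no_three_touch (h : Setup G S I) {T₁ T₂ T₃ : Set V} (h1 : Conn G T₁) (h2 : Conn G T₂)
    (h3 : Conn G T₃) (s1 : T₁ ⊆ HH S I) (s2 : T₂ ⊆ HH S I) (s3 : T₃ ⊆ HH S I)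
    (d12 : Disjoint T₁ T₂) (d13 : Disjoint T₁ T₃) (d23 : Disjoint T₂ T₃)
    (t12 : Touch G T₁ T₂) (t13 : Touch G T₁ T₃) : Anti G T₂ T₃ := by
  rw [← not_touch]
  intro t23
  obtain ⟨x, hx, y, hy, e, -⟩ := h.exists_unique_edge h1 h2 s1 s2 d12 t12
  obtain ⟨x', hx', y', hy', e', -⟩ := h.exists_unique_edge h1 h3 s1 s3 d13 t13
  have := h.edge_unique h1 (h2.un h3 t23) s1 (Set.union_subset s2 s3)
    (Set.disjoint_union_right.2 ⟨d12, d13⟩) hx (Or.inl hy) hx' (Or.inr hy') e e'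
  exact Set.disjoint_left.1 d23 hy (this.2 ▸ hy')

/-! ### the path between two vertices of `H` -/

theorem exists_hpath (h : Setup G S I) (u v : V) : ∃ p : ℕ × (ℕ → V), u ∈ HH S I → v ∈ HH S I →
    IsIP G p.2 p.1 ∧ p.2 0 = u ∧ p.2 p.1 = v ∧ ∀ i, i ≤ p.1 → p.2 i ∈ HH S I := by
  by_cases hu : u ∈ HH S I
  · by_cases hv : v ∈ HH S I
    · obtain ⟨n, f, hf⟩ := h.conn.exists_ipc hu hv
      exact ⟨(n, f), fun _ _ => hf⟩
    · exact ⟨(0, fun _ => u), fun _ hv' => (hv hv').elim⟩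
  · exact ⟨(0, fun _ => u), fun hu' _ => (hu hu').elim⟩

/-- the number of edges of the `H`-path from `u` to `v` -/
noncomputable def hlen (h : Setup G S I) (u v : V) : ℕ := (h.exists_hpath u v).choose.1

/-- the `H`-path from `u` to `v` -/
noncomputable def hpath (h : Setup G S I) (u v : V) : ℕ → V := (h.exists_hpath u v).choose.2

/-- the vertex set of the `H`-path from `u` to `v` -/
def hseg (h : Setup G S I) (u v : V) : Set V := seg (h.hpath u v) 0 (h.hlen u v)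

section
variable (h : Setup G S I) {u v w x : V}
include h

theorem hpath_spec (hu : u ∈ HH S I) (hv : v ∈ HH S I) :
    IsIP G (h.hpath u v) (h.hlen u v) ∧ h.hpath u v 0 = u ∧ h.hpath u v (h.hlen u v) = v ∧
      ∀ i, i ≤ h.hlen u v → h.hpath u v i ∈ HH S I := (h.exists_hpath u v).choose_spec hu hv

theorem hpath_isIP (hu : u ∈ HH S I) (hv : v ∈ HH S I) : IsIP G (h.hpath u v) (h.hlen u v) :=
  (h.hpath_spec hu hv).1

theorem hpath_zero (hu : u ∈ HH S I) (hv : v ∈ HH S I) : h.hpath u v 0 = u :=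
  (h.hpath_spec hu hv).2.1

theorem hpath_hlen (hu : u ∈ HH S I) (hv : v ∈ HH S I) : h.hpath u v (h.hlen u v) = v :=
  (h.hpath_spec hu hv).2.2.1

theorem hpath_mem (hu : u ∈ HH S I) (hv : v ∈ HH S I) {i : ℕ} (hi : i ≤ h.hlen u v) :
    h.hpath u v i ∈ HH S I := (h.hpath_spec hu hv).2.2.2 i hi

theorem mem_hseg : x ∈ h.hseg u v ↔ ∃ i, i ≤ h.hlen u v ∧ h.hpath u v i = x := by
  unfold hseg
  rw [mem_seg]
  exact ⟨fun ⟨k, _, b, c⟩ => ⟨k, b, c⟩, fun ⟨k, b, c⟩ => ⟨k, Nat.zero_le _, b, c⟩⟩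

theorem hpath_mem_hseg {i : ℕ} (hi : i ≤ h.hlen u v) : h.hpath u v i ∈ h.hseg u v :=
  h.mem_hseg.2 ⟨i, hi, rfl⟩

theorem hseg_subset_H (hu : u ∈ HH S I) (hv : v ∈ HH S I) : h.hseg u v ⊆ HH S I :=
  seg_subset fun _ _ hk => h.hpath_mem hu hv hk

theorem left_mem_hseg (hu : u ∈ HH S I) (hv : v ∈ HH S I) : u ∈ h.hseg u v :=
  h.mem_hseg.2 ⟨0, Nat.zero_le _, h.hpath_zero hu hv⟩

theorem right_mem_hseg (hu : u ∈ HH S I) (hv : v ∈ HH S I) : v ∈ h.hseg u v :=
  h.mem_hseg.2 ⟨_, le_rfl, h.hpath_hlen hu hv⟩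

theorem conn_hseg (hu : u ∈ HH S I) (hv : v ∈ HH S I) : Conn G (h.hseg u v) :=
  (h.hpath_isIP hu hv).conn_seg (Nat.zero_le _) le_rfl

theorem ipc_hseg (hu : u ∈ HH S I) (hv : v ∈ HH S I) : IPc G u v (h.hlen u v) (h.hseg u v) :=
  ⟨_, h.hpath_isIP hu hv, h.hpath_zero hu hv, h.hpath_hlen hu hv, fun _ hi => h.hpath_mem_hseg hi⟩

theorem ip_hseg (hu : u ∈ HH S I) (hv : v ∈ HH S I) :
    IP G u v (h.hlen u v) (h.hseg u v \ {u, v}) := (h.ipc_hseg hu hv).toIP

/-- an induced path inside `H` is the `H`-path between its ends -/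
theorem hpath_eq {f : ℕ → V} {n : ℕ} (hf : IsIP G f n) (fH : ∀ i, i ≤ n → f i ∈ HH S I)
    (f0 : f 0 = u) (fn : f n = v) :
    h.hlen u v = n ∧ (∀ i, i ≤ n → h.hpath u v i = f i) ∧ h.hseg u v = seg f 0 n := by
  have hu : u ∈ HH S I := f0 ▸ fH 0 (Nat.zero_le _)
  have hv : v ∈ HH S I := fn ▸ fH n le_rfl
  obtain ⟨a, b⟩ := h.ip_unique hf (h.hpath_isIP hu hv) fH (fun i hi => h.hpath_mem hu hv hi)
    (f0.trans (h.hpath_zero hu hv).symm) (fn.trans (h.hpath_hlen hu hv).symm)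
  refine ⟨a.symm, fun i hi => (b i hi).symm, ?_⟩
  ext y
  rw [h.mem_hseg, mem_seg, ← a]
  exact ⟨fun ⟨k, k1, k2⟩ => ⟨k, Nat.zero_le _, k1, (b k k1).trans k2⟩,
    fun ⟨k, _, k1, k2⟩ => ⟨k, k1, (b k k1).symm.trans k2⟩⟩

theorem of_ipc {n : ℕ} {X : Set V} (hp : IPc G u v n X) (hX : X ⊆ HH S I) :
    h.hlen u v = n ∧ h.hseg u v ⊆ X := by
  obtain ⟨f, hf, f0, fn, fX⟩ := hp
  obtain ⟨a, -, c⟩ := h.hpath_eq hf (fun i hi => hX (fX i hi)) f0 fn
  exact ⟨a, c ▸ seg_subset fun k _ hk => fX k hk⟩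

theorem of_ip {n : ℕ} {X : Set V} (hu : u ∈ HH S I) (hv : v ∈ HH S I) (hp : IP G u v n X)
    (hX : X ⊆ HH S I) : h.hlen u v = n ∧ h.hseg u v ⊆ insert u (insert v X) :=
  h.of_ipc hp.toIPc (Set.insert_subset hu (Set.insert_subset hv hX))

/-- a connected subset of `H` contains the `H`-path between any two of its vertices -/
theorem hseg_subset {T : Set V} (hT : Conn G T) (hTH : T ⊆ HH S I) (hu : u ∈ T) (hv : v ∈ T) :
    h.hseg u v ⊆ T := by
  obtain ⟨n, hp⟩ := hT.exists_ipc hu hv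
  exact (h.of_ipc hp hTH).2

theorem hseg_subset_cN {T : Set V} (hT : Conn G T) (hTH : T ⊆ HH S I) (hu : u ∈ HH S I)
    (hv : v ∈ HH S I) (uT : u ∈ cN G T) (vT : v ∈ cN G T) :
    h.hseg u v ⊆ insert u (insert v T) := by
  obtain ⟨n, hp⟩ := hT.exists_ip uT vT
  exact (h.of_ip hu hv hp hTH).2

/-- connected subsets of `H` that meet have a connected intersection -/
theorem conn_inter {T₁ T₂ : Set V} (h1 : Conn G T₁) (h2 : Conn G T₂) (s1 : T₁ ⊆ HH S I)
    (s2 : T₂ ⊆ HH S I) (hne : (T₁ ∩ T₂).Nonempty) : Conn G (T₁ ∩ T₂) := by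
  refine ⟨hne, fun a ha b hb => ?_⟩
  exact ((h.conn_hseg (s1 ha.1) (s1 hb.1)).rin (h.left_mem_hseg (s1 ha.1) (s1 hb.1))
    (h.right_mem_hseg (s1 ha.1) (s1 hb.1))).mono
    (Set.subset_inter (h.hseg_subset h1 s1 ha.1 hb.1) (h.hseg_subset h2 s2 ha.2 hb.2))

theorem hlen_self (hu : u ∈ HH S I) : h.hlen u u = 0 := (h.of_ipc (IPc.refl hu) le_rfl).1

theorem hseg_self (hu : u ∈ HH S I) : h.hseg u u = {u} := by
  unfold hseg
  rw [h.hlen_self hu, seg_self, h.hpath_zero hu hu]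

theorem hlen_eq_zero_iff (hu : u ∈ HH S I) (hv : v ∈ HH S I) : h.hlen u v = 0 ↔ u = v := by
  constructor
  · intro e
    have := h.hpath_hlen hu hv
    rw [e, h.hpath_zero hu hv] at this
    exact this
  · rintro rfl
    exact h.hlen_self hu

theorem hlen_pos (hu : u ∈ HH S I) (hv : v ∈ HH S I) (hne : u ≠ v) : 0 < h.hlen u v :=
  Nat.pos_of_ne_zero fun e => hne ((h.hlen_eq_zero_iff hu hv).1 e)

theorem hlen_eq_one_iff (hu : u ∈ HH S I) (hv : v ∈ HH S I) : h.hlen u v = 1 ↔ G.Adj u v :=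
  (h.ip_hseg hu hv).adj_iff.symm

theorem hseg_of_adj (hu : u ∈ HH S I) (hv : v ∈ HH S I) (e : G.Adj u v) :
    h.hseg u v = {u, v} := by
  refine Set.Subset.antisymm ?_ ?_
  · have := (h.of_ip hu hv (IP.of_adj e ∅) (Set.empty_subset _)).2
    simpa using this
  · rintro y (rfl | rfl)
    · exact h.left_mem_hseg hu hv
    · exact h.right_mem_hseg hu hv

theorem hlen_symm (hu : u ∈ HH S I) (hv : v ∈ HH S I) : h.hlen v u = h.hlen u v :=
  (h.of_ipc (h.ipc_hseg hu hv).symm (h.hseg_subset_H hu hv)).1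

theorem hpath_symm (hu : u ∈ HH S I) (hv : v ∈ HH S I) {i : ℕ} (hi : i ≤ h.hlen u v) :
    h.hpath v u i = h.hpath u v (h.hlen u v - i) :=
  (h.hpath_eq (h.hpath_isIP hu hv).rev (fun j _ => h.hpath_mem hu hv (Nat.sub_le _ j))
    (by simpa using h.hpath_hlen hu hv) (by simpa using h.hpath_zero hu hv)).2.1 i hi

theorem hseg_symm (hu : u ∈ HH S I) (hv : v ∈ HH S I) : h.hseg v u = h.hseg u v :=
  Set.Subset.antisymm (h.of_ipc (h.ipc_hseg hu hv).symm (h.hseg_subset_H hu hv)).2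
    (h.of_ipc (h.ipc_hseg hv hu).symm (h.hseg_subset_H hv hu)).2

theorem hpath_colour (hu : u ∈ HH S I) (hv : v ∈ HH S I) {i : ℕ} (hi : i ≤ h.hlen u v) :
    h.hpath u v i ∈ I \ S ↔ (u ∈ I \ S ↔ Even i) := by
  have := h.ip_colour (h.hpath_isIP hu hv) (fun j hj => h.hpath_mem hu hv hj) hi
  rwa [h.hpath_zero hu hv] at this

theorem even_hlen_iff (hu : u ∈ HH S I) (hv : v ∈ HH S I) :
    Even (h.hlen u v) ↔ (u ∈ I \ S ↔ v ∈ I \ S) := by
  have := h.hpath_colour hu hv le_rfl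
  rw [h.hpath_hlen hu hv] at this
  tauto

/-- the `H`-path between two vertices of an induced path of `H` is the segment -/
theorem hpath_of_seg {f : ℕ → V} {n i j : ℕ} (hf : IsIP G f n) (fH : ∀ k, k ≤ n → f k ∈ HH S I)
    (hij : i ≤ j) (hj : j ≤ n) :
    h.hlen (f i) (f j) = j - i ∧ (∀ k, k ≤ j - i → h.hpath (f i) (f j) k = f (i + k)) ∧
      h.hseg (f i) (f j) = seg f i j := by
  obtain ⟨a, b, c⟩ := h.hpath_eq (u := f i) (v := f j) (hf.shift (a := i) hj)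
    (fun k hk => fH _ (by omega)) rfl (by show f (i + (j - i)) = f j; congr 1; omega)
  refine ⟨a, b, c.trans ?_⟩
  ext y
  simp only [mem_seg]
  constructor
  · rintro ⟨k, -, k1, k2⟩
    exact ⟨i + k, by omega, by omega, k2⟩
  · rintro ⟨k, k0, k1, k2⟩
    exact ⟨k - i, Nat.zero_le _, by omega, by rw [← k2]; congr 1; omega⟩

theorem hpath_of_seg' {f : ℕ → V} {n i j : ℕ} (hf : IsIP G f n) (fH : ∀ k, k ≤ n → f k ∈ HH S I)
    (hij : i ≤ j) (hj : j ≤ n) :
    h.hlen (f j) (f i) = j - i ∧ (∀ k, k ≤ j - i → h.hpath (f j) (f i) k = f (j - k)) ∧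
      h.hseg (f j) (f i) = seg f i j := by
  obtain ⟨a, b, c⟩ := h.hpath_of_seg hf fH hij hj
  have hi' := fH i (by omega)
  have hj' := fH j hj
  refine ⟨(h.hlen_symm hi' hj').trans a, fun k hk => ?_, (h.hseg_symm hi' hj').trans c⟩
  rw [h.hpath_symm hi' hj' (by omega), a, b _ (by omega)]
  congr 1; omega

theorem hpath_sub (hu : u ∈ HH S I) (hv : v ∈ HH S I) {i j : ℕ} (hij : i ≤ j)
    (hj : j ≤ h.hlen u v) :
    h.hlen (h.hpath u v i) (h.hpath u v j) = j - i ∧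
      (∀ k, k ≤ j - i → h.hpath (h.hpath u v i) (h.hpath u v j) k = h.hpath u v (i + k)) ∧
      h.hseg (h.hpath u v i) (h.hpath u v j) = seg (h.hpath u v) i j :=
  h.hpath_of_seg (h.hpath_isIP hu hv) (fun _ hk => h.hpath_mem hu hv hk) hij hj

theorem hpath_sub_left (hu : u ∈ HH S I) (hv : v ∈ HH S I) {j : ℕ} (hj : j ≤ h.hlen u v) :
    h.hlen u (h.hpath u v j) = j ∧
      (∀ k, k ≤ j → h.hpath u (h.hpath u v j) k = h.hpath u v k) ∧
      h.hseg u (h.hpath u v j) = seg (h.hpath u v) 0 j := by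
  have := h.hpath_sub hu hv (Nat.zero_le j) hj
  rw [h.hpath_zero hu hv] at this
  simpa using this

theorem hpath_sub_right (hu : u ∈ HH S I) (hv : v ∈ HH S I) {i : ℕ} (hi : i ≤ h.hlen u v) :
    h.hlen (h.hpath u v i) v = h.hlen u v - i ∧
      (∀ k, k ≤ h.hlen u v - i → h.hpath (h.hpath u v i) v k = h.hpath u v (i + k)) ∧
      h.hseg (h.hpath u v i) v = seg (h.hpath u v) i (h.hlen u v) := by
  have := h.hpath_sub hu hv hi le_rfl
  rw [h.hpath_hlen hu hv] at this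
  exact this

/-- a vertex of the path sits at the position given by its distance from the start -/
theorem hpath_hlen_of_mem (hu : u ∈ HH S I) (hv : v ∈ HH S I) (hx : x ∈ h.hseg u v) :
    h.hlen u x ≤ h.hlen u v ∧ h.hpath u v (h.hlen u x) = x := by
  obtain ⟨i, hi, rfl⟩ := h.mem_hseg.1 hx
  rw [(h.hpath_sub_left hu hv hi).1]
  exact ⟨hi, rfl⟩

theorem hseg_subset_hseg {y : V} (hu : u ∈ HH S I) (hv : v ∈ HH S I) (hx : x ∈ h.hseg u v)
    (hy : y ∈ h.hseg u v) : h.hseg x y ⊆ h.hseg u v :=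
  h.hseg_subset (h.conn_hseg hu hv) (h.hseg_subset_H hu hv) hx hy

/-- splitting a path at one of its vertices -/
theorem hseg_split (hu : u ∈ HH S I) (hv : v ∈ HH S I) (hx : x ∈ h.hseg u v) :
    h.hlen u v = h.hlen u x + h.hlen x v ∧ h.hseg u v = h.hseg u x ∪ h.hseg x v ∧
      Anti G (h.hseg u x \ {x}) (h.hseg x v \ {x}) := by
  obtain ⟨i, hi, rfl⟩ := h.mem_hseg.1 hx
  obtain ⟨a, -, b⟩ := h.hpath_sub_left hu hv hi
  obtain ⟨c, -, d⟩ := h.hpath_sub_right hu hv hi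
  have hf := h.hpath_isIP hu hv
  rw [a, b, c, d]
  refine ⟨by omega, ?_, ?_⟩
  · ext y
    simp only [hseg, Set.mem_union, mem_seg]
    constructor
    · rintro ⟨k, k0, k1, k2⟩
      by_cases hk : k ≤ i
      · exact Or.inl ⟨k, k0, hk, k2⟩
      · exact Or.inr ⟨k, by omega, k1, k2⟩
    · rintro (⟨k, k0, k1, k2⟩ | ⟨k, k0, k1, k2⟩)
      · exact ⟨k, k0, by omega, k2⟩
      · exact ⟨k, Nat.zero_le _, k1, k2⟩
  · rintro y ⟨⟨k, -, k1, rfl⟩, k2⟩ z ⟨⟨l, l0, l1, rfl⟩, l2⟩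
    have hk : k ≠ i := fun e => k2 (by rw [e]; rfl)
    have hl : l ≠ i := fun e => l2 (by rw [e]; rfl)
    exact ⟨hf.ne (by omega) l1 (by omega), hf.not_adj (by omega) l1⟩

theorem hseg_inter_of_mem (hu : u ∈ HH S I) (hv : v ∈ HH S I) (hx : x ∈ h.hseg u v) :
    h.hseg u x ∩ h.hseg x v = {x} := by
  have hxH := h.hseg_subset_H hu hv hx
  refine Set.Subset.antisymm ?_ ?_
  · rintro y ⟨y1, y2⟩
    by_contra hc
    exact (h.hseg_split hu hv hx).2.2.notMem ⟨y1, hc⟩ ⟨y2, hc⟩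
  · rintro y rfl
    exact ⟨h.right_mem_hseg hu hxH, h.left_mem_hseg hxH hv⟩

/-- the path without its first vertex -/
theorem hseg_diff_left (hu : u ∈ HH S I) (hv : v ∈ HH S I) :
    h.hseg u v \ {u} = seg (h.hpath u v) 1 (h.hlen u v) := by
  have hf := h.hpath_isIP hu hv
  ext y
  constructor
  · rintro ⟨⟨k, -, k1, rfl⟩, k2⟩
    refine ⟨k, ?_, k1, rfl⟩
    rcases Nat.eq_zero_or_pos k with rfl | hk
    · exact (k2 (h.hpath_zero hu hv)).elim
    · exact hk
  · rintro ⟨k, k0, k1, rfl⟩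
    refine ⟨⟨k, Nat.zero_le _, k1, rfl⟩, fun e => ?_⟩
    exact hf.ne k1 (Nat.zero_le _) (by omega) (e.trans (h.hpath_zero hu hv).symm)

theorem conn_hseg_diff_left (hu : u ∈ HH S I) (hv : v ∈ HH S I) (hne : u ≠ v) :
    Conn G (h.hseg u v \ {u}) := by
  rw [h.hseg_diff_left hu hv]
  exact (h.hpath_isIP hu hv).conn_seg (h.hlen_pos hu hv hne) le_rfl

theorem conn_hseg_diff_right (hu : u ∈ HH S I) (hv : v ∈ HH S I) (hne : u ≠ v) :
    Conn G (h.hseg u v \ {v}) := by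
  rw [← h.hseg_symm hu hv]
  exact h.conn_hseg_diff_left hv hu hne.symm

theorem adj_hpath_one (hu : u ∈ HH S I) (hv : v ∈ HH S I) (hne : u ≠ v) :
    G.Adj u (h.hpath u v 1) := by
  have := (h.hpath_isIP hu hv).adj_succ (h.hlen_pos hu hv hne)
  rwa [h.hpath_zero hu hv] at this

theorem hpath_one_mem (hu : u ∈ HH S I) (hv : v ∈ HH S I) (hne : u ≠ v) :
    h.hpath u v 1 ∈ h.hseg u v \ {u} := by
  rw [h.hseg_diff_left hu hv]
  exact apply_mem_seg le_rfl (h.hlen_pos hu hv hne)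

theorem sees_hseg_diff_left (hu : u ∈ HH S I) (hv : v ∈ HH S I) (hne : u ≠ v) :
    Sees G u (h.hseg u v \ {u}) := ⟨_, h.hpath_one_mem hu hv hne, h.adj_hpath_one hu hv hne⟩

/-- two paths starting at `x` that meet only in `x` are otherwise anticomplete -/
theorem anti_of_disjoint (hx : x ∈ HH S I) (hu : u ∈ HH S I) (hv : v ∈ HH S I)
    (hd : ∀ y ∈ h.hseg x u, y ∈ h.hseg x v → y = x) :
    Anti G (h.hseg x u \ {x}) (h.hseg x v \ {x}) := by
  by_cases e1 : x = u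
  · subst e1
    rw [h.hseg_self hx, Set.sdiff_self]
    exact anti_empty_left
  by_cases e2 : x = v
  · subst e2
    rw [h.hseg_self hx, Set.sdiff_self]
    exact anti_empty_right
  exact h.anti_of_sees (h.conn_hseg_diff_left hx hu e1) (h.conn_hseg_diff_left hx hv e2)
    (Set.sdiff_subset.trans (h.hseg_subset_H hx hu)) (Set.sdiff_subset.trans (h.hseg_subset_H hx hv))
    (Set.disjoint_left.2 fun y hy hy' => hy.2 (hd y hy.1 hy'.1)) hx (fun hc => hc.2 rfl)
    (fun hc => hc.2 rfl) (h.sees_hseg_diff_left hx hu e1) (h.sees_hseg_diff_left hx hv e2)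

/-- concatenation: paths `u..x` and `x..v` that meet only in `x` form the path `u..v` -/
theorem mem_hseg_of_disjoint (hx : x ∈ HH S I) (hu : u ∈ HH S I) (hv : v ∈ HH S I)
    (hd : ∀ y ∈ h.hseg x u, y ∈ h.hseg x v → y = x) : x ∈ h.hseg u v := by
  have hA := h.anti_of_disjoint hx hu hv hd
  obtain ⟨f, hf, f0, fn, fX⟩ := (h.ipc_hseg hx hu).symm.concat (h.ipc_hseg hx hv) hA
  have fH : ∀ i, i ≤ h.hlen x u + h.hlen x v → f i ∈ HH S I := fun i hi =>
    (fX i hi).elim (fun a => h.hseg_subset_H hx hu a) fun a => h.hseg_subset_H hx hv a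
  obtain ⟨-, -, c⟩ := h.hpath_eq hf fH f0 fn
  by_contra hc
  have hsub : h.hseg u v ⊆ (h.hseg x u \ {x}) ∪ (h.hseg x v \ {x}) := by
    intro y hy
    have hne : y ≠ x := fun e => hc (e ▸ hy)
    rw [c] at hy
    obtain ⟨k, -, k1, rfl⟩ := hy
    exact (fX k k1).elim (fun a => Or.inl ⟨a, hne⟩) fun a => Or.inr ⟨a, hne⟩
  rcases (h.conn_hseg hu hv).subset_or hA hsub with hs | hs
  · have := hs (h.right_mem_hseg hu hv)
    exact this.2 (hd v this.1 (h.right_mem_hseg hx hv))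
  · have := hs (h.left_mem_hseg hu hv)
    exact this.2 (hd u (h.right_mem_hseg hx hu) this.1)

theorem mem_hseg_iff_disjoint (hx : x ∈ HH S I) (hu : u ∈ HH S I) (hv : v ∈ HH S I) :
    x ∈ h.hseg u v ↔ ∀ y ∈ h.hseg x u, y ∈ h.hseg x v → y = x := by
  refine ⟨fun hm y y1 y2 => ?_, h.mem_hseg_of_disjoint hx hu hv⟩
  have := h.hseg_inter_of_mem hu hv hm
  rw [h.hseg_symm hu hx] at y1
  exact (this.subset ⟨y1, y2⟩ :)

/-- the path `u..v` lies inside the union of the paths `u..x` and `x..v` -/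
theorem hseg_subset_union (hu : u ∈ HH S I) (hx : x ∈ HH S I) (hv : v ∈ HH S I) :
    h.hseg u v ⊆ h.hseg u x ∪ h.hseg x v :=
  h.hseg_subset ((h.conn_hseg hu hx).un (h.conn_hseg hx hv)
      (Touch.of_mem (h.right_mem_hseg hu hx) (h.left_mem_hseg hx hv)))
    (Set.union_subset (h.hseg_subset_H hu hx) (h.hseg_subset_H hx hv))
    (Or.inl (h.left_mem_hseg hu hx)) (Or.inr (h.right_mem_hseg hx hv))

/-- the projection (gate) of a vertex of `H` to a connected subset of `H` -/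
theorem exists_gate {T : Set V} (hT : Conn G T) (hTH : T ⊆ HH S I) (hw : w ∈ HH S I) :
    ∃ m ∈ T, (∀ y ∈ h.hseg m w, y ∈ T → y = m) ∧ ∀ t ∈ T, m ∈ h.hseg t w := by
  obtain ⟨t₀, ht₀⟩ := hT.nonempty
  obtain ⟨n, f, hf, fH, f0, fn, fP, -⟩ := h.conn.exists_min_path (P := T) (Q := {w})
    ⟨t₀, hTH ht₀, ht₀⟩ ⟨w, hw, rfl⟩
  obtain ⟨-, -, c⟩ := h.hpath_eq hf fH rfl fn
  have key : ∀ y ∈ h.hseg (f 0) w, y ∈ T → y = f 0 := by
    rw [c]
    rintro y ⟨k, -, k1, rfl⟩ hy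
    rcases Nat.eq_zero_or_pos k with rfl | hk
    · rfl
    · exact (fP k hk k1 hy).elim
  refine ⟨f 0, f0, key, fun t ht => ?_⟩
  exact h.mem_hseg_of_disjoint (hTH f0) (hTH ht) hw fun y y1 y2 =>
    key y y2 (h.hseg_subset hT hTH f0 ht y1)

/-- the median of three vertices of `H` -/
theorem exists_median (hu : u ∈ HH S I) (hv : v ∈ HH S I) (hw : w ∈ HH S I) :
    ∃ m, m ∈ h.hseg u v ∧ m ∈ h.hseg u w ∧ m ∈ h.hseg v w ∧
      Anti G (h.hseg m u \ {m}) (h.hseg m v \ {m}) ∧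
      Anti G (h.hseg m u \ {m}) (h.hseg m w \ {m}) ∧
      Anti G (h.hseg m v \ {m}) (h.hseg m w \ {m}) := by
  obtain ⟨m, hm, -, hg⟩ := h.exists_gate (h.conn_hseg hu hv) (h.hseg_subset_H hu hv) hw
  have hmH := h.hseg_subset_H hu hv hm
  have h2 := hg u (h.left_mem_hseg hu hv)
  have h3 := hg v (h.right_mem_hseg hu hv)
  exact ⟨m, hm, h2, h3,
    h.anti_of_disjoint hmH hu hv ((h.mem_hseg_iff_disjoint hmH hu hv).1 hm),
    h.anti_of_disjoint hmH hu hw ((h.mem_hseg_iff_disjoint hmH hu hw).1 h2),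
    h.anti_of_disjoint hmH hv hw ((h.mem_hseg_iff_disjoint hmH hv hw).1 h3)⟩

theorem median_unique (hu : u ∈ HH S I) (hv : v ∈ HH S I) (hw : w ∈ HH S I) {m m' : V}
    (a1 : m ∈ h.hseg u v) (a2 : m ∈ h.hseg u w) (a3 : m ∈ h.hseg v w)
    (b1 : m' ∈ h.hseg u v) (b2 : m' ∈ h.hseg u w) (b3 : m' ∈ h.hseg v w) : m' = m := by
  have hm := h.hseg_subset_H hu hv a1
  rw [(h.hseg_split hu hv a1).2.1, ← h.hseg_symm hu hm] at b1
  rw [(h.hseg_split hu hw a2).2.1, ← h.hseg_symm hu hm] at b2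
  rw [(h.hseg_split hv hw a3).2.1, ← h.hseg_symm hv hm] at b3
  have c1 := (h.mem_hseg_iff_disjoint hm hu hv).1 a1 m'
  have c2 := (h.mem_hseg_iff_disjoint hm hu hw).1 a2 m'
  have c3 := (h.mem_hseg_iff_disjoint hm hv hw).1 a3 m'
  rcases b1 with b1 | b1 <;> rcases b2 with b2 | b2 <;> rcases b3 with b3 | b3 <;> tauto

theorem hlen_triangle (hu : u ∈ HH S I) (hx : x ∈ HH S I) (hv : v ∈ HH S I) :
    h.hlen u v ≤ h.hlen u x + h.hlen x v := by
  obtain ⟨m, a1, a2, a3, -⟩ := h.exists_median hu hv hx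
  have hm := h.hseg_subset_H hu hv a1
  have b1 := (h.hseg_split hu hv a1).1
  have b2 := (h.hseg_split hu hx a2).1
  have b3 := (h.hseg_split hv hx a3).1
  have b4 := h.hlen_symm hv hx
  have b5 := h.hlen_symm hv hm
  omega

theorem mem_hseg_iff_hlen (hu : u ∈ HH S I) (hx : x ∈ HH S I) (hv : v ∈ HH S I) :
    x ∈ h.hseg u v ↔ h.hlen u v = h.hlen u x + h.hlen x v := by
  refine ⟨fun hm => (h.hseg_split hu hv hm).1, fun e => ?_⟩
  obtain ⟨m, a1, a2, a3, -⟩ := h.exists_median hu hv hx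
  have hm := h.hseg_subset_H hu hv a1
  have b1 := (h.hseg_split hu hv a1).1
  have b2 := (h.hseg_split hu hx a2).1
  have b3 := (h.hseg_split hv hx a3).1
  have b4 := h.hlen_symm hv hx
  have b5 := h.hlen_symm hv hm
  have : m = x := (h.hlen_eq_zero_iff hm hx).1 (by omega)
  exact this ▸ a1

/-- moving along an edge changes the distance by exactly one -/
theorem hlen_adj {y : V} (hu : u ∈ HH S I) (hx : x ∈ HH S I) (hy : y ∈ HH S I) (e : G.Adj x y) :
    h.hlen u y = h.hlen u x + 1 ∨ h.hlen u x = h.hlen u y + 1 := by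
  have a1 := h.hlen_triangle hu hx hy
  have a2 := h.hlen_triangle hu hy hx
  have a3 := (h.hlen_eq_one_iff hx hy).2 e
  have a4 := (h.hlen_eq_one_iff hy hx).2 e.symm
  have p1 := h.even_hlen_iff hu hx
  have p2 := h.even_hlen_iff hu hy
  have p3 := h.adj_black_iff hx hy e
  have : h.hlen u x ≠ h.hlen u y := by
    intro ee
    rw [ee] at p1
    tauto
  omega

/-- a walk inside `H` is at least as long as the `H`-path between its ends -/
theorem hlen_le_walk {f : ℕ → V} {n : ℕ} (hf : WalkIn G (HH S I) f n) :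
    h.hlen (f 0) (f n) ≤ n := by
  obtain ⟨m, g, hm, hg, g0, gm, gX, -⟩ := exists_isIP_of_walk n f hf.2
  have gH : ∀ i, i ≤ m → g i ∈ HH S I := by
    intro i hi
    rcases Nat.eq_zero_or_pos i with rfl | h0
    · exact g0 ▸ hf.1 0 (Nat.zero_le _)
    · obtain ⟨k, -, k1, k2⟩ := gX i h0 hi
      exact k2 ▸ hf.1 k k1
  rw [(h.hpath_eq hg gH g0 gm).1]
  exact hm

/-! ### deleting a vertex -/

omit h in
theorem nbr_mem_diff {y : V} (hy : y ∈ HH S I) (e : G.Adj x y) : y ∈ HH S I \ {x} :=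
  ⟨hy, fun e' => e.ne (Set.mem_singleton_iff.1 e').symm⟩

/-- `v` is in the component of `u` in `H - x` iff `x` is not on the path from `u` to `v` -/
theorem mem_comp_iff (hu : u ∈ HH S I) (hv : v ∈ HH S I) :
    v ∈ comp G (HH S I \ {x}) u ↔ x ∉ h.hseg u v := by
  constructor
  · intro hc hx
    have hu' : u ∈ HH S I \ {x} := hc.1
    have := h.hseg_subset (conn_comp hu') ((comp_subset _ _).trans Set.sdiff_subset)
      (mem_comp_self hu') hc hx
    exact (comp_subset _ _ this).2 rfl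
  · intro hx
    have hs : h.hseg u v ⊆ HH S I \ {x} := fun y hy =>
      ⟨h.hseg_subset_H hu hv hy, fun e => hx ((Set.mem_singleton_iff.1 e) ▸ hy)⟩
    exact (h.conn_hseg hu hv).subset_comp_of_mem hs (h.left_mem_hseg hu hv)
      (h.right_mem_hseg hu hv)

/-- more generally, for a deleted set -/
theorem mem_comp_iff_disjoint {X : Set V} (hu : u ∈ HH S I) (hv : v ∈ HH S I) :
    v ∈ comp G (HH S I \ X) u ↔ Disjoint (h.hseg u v) X := by
  constructor
  · intro hc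
    have hu' : u ∈ HH S I \ X := hc.1
    have := h.hseg_subset (conn_comp hu') ((comp_subset _ _).trans Set.sdiff_subset)
      (mem_comp_self hu') hc
    exact Set.disjoint_left.2 fun y hy => (comp_subset _ _ (this hy)).2
  · intro hx
    have hs : h.hseg u v ⊆ HH S I \ X := fun y hy =>
      ⟨h.hseg_subset_H hu hv hy, Set.disjoint_left.1 hx hy⟩
    exact (h.conn_hseg hu hv).subset_comp_of_mem hs (h.left_mem_hseg hu hv)
      (h.right_mem_hseg hu hv)

theorem mem_hseg_iff_inside (hu : u ∈ HH S I) (hv : v ∈ HH S I) (ux : u ≠ x) (vx : v ≠ x) :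
    x ∈ h.hseg u v ↔ ∃ i, 0 < i ∧ i < h.hlen u v ∧ h.hpath u v i = x := by
  rw [h.mem_hseg]
  constructor
  · rintro ⟨i, hi, e⟩
    refine ⟨i, ?_, ?_, e⟩
    · rcases Nat.eq_zero_or_pos i with rfl | h0
      · exact (ux ((h.hpath_zero hu hv).symm.trans e)).elim
      · exact h0
    · rcases Nat.lt_or_eq_of_le hi with h0 | rfl
      · exact h0
      · exact (vx ((h.hpath_hlen hu hv).symm.trans e)).elim
  · rintro ⟨i, -, hi, e⟩
    exact ⟨i, hi.le, e⟩

theorem comp_ne_iff (hu : u ∈ HH S I \ {x}) (hv : v ∈ HH S I \ {x}) :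
    comp G (HH S I \ {x}) u ≠ comp G (HH S I \ {x}) v ↔ x ∈ h.hseg u v := by
  rw [← not_iff_not, not_not, ← h.mem_comp_iff hu.1 hv.1]
  exact ⟨fun e => e ▸ mem_comp_self hv, fun e => (comp_eq_of_mem e).symm⟩

/-- (3) `u`, `v` lie in different components of `H - x` iff `x` is strictly inside the path -/
theorem comp_ne_iff_inside (hu : u ∈ HH S I \ {x}) (hv : v ∈ HH S I \ {x}) :
    comp G (HH S I \ {x}) u ≠ comp G (HH S I \ {x}) v ↔
      ∃ i, 0 < i ∧ i < h.hlen u v ∧ h.hpath u v i = x := by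
  rw [h.comp_ne_iff hu hv, h.mem_hseg_iff_inside hu.1 hv.1 hu.2 hv.2]

theorem comp_anti_iff (hu : u ∈ HH S I \ {x}) (hv : v ∈ HH S I \ {x}) :
    Anti G (comp G (HH S I \ {x}) u) (comp G (HH S I \ {x}) v) ↔ x ∈ h.hseg u v := by
  rw [← h.comp_ne_iff hu hv]
  exact ⟨fun a e => a.notMem (mem_comp_self hu) (e ▸ mem_comp_self hu), comp_anti_of_ne⟩

/-- (3) two neighbours of `x` in the same component of `H - x` are equal -/
theorem nbr_eq_of_mem_comp {y y' : V} (hx : x ∈ HH S I) (e : G.Adj x y) (e' : G.Adj x y')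
    (a : v ∈ comp G (HH S I \ {x}) y) (a' : v ∈ comp G (HH S I \ {x}) y') : y = y' := by
  have hy : y ∈ HH S I \ {x} := a.1
  have hy' : y' ∈ HH S I \ {x} := a'.1
  refine h.one_nbr (conn_comp hy) ((comp_subset _ _).trans Set.sdiff_subset) hx
    (fun hc => (comp_subset _ _ hc).2 rfl) (mem_comp_self hy) ?_ e e'
  rw [← comp_eq_of_mem a, comp_eq_of_mem a']
  exact mem_comp_self hy'

/-- (3) different neighbours of `x` have anticomplete components in `H - x` -/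
theorem comp_nbr_anti {y y' : V} (hx : x ∈ HH S I) (hy : y ∈ HH S I) (_hy' : y' ∈ HH S I)
    (e : G.Adj x y) (e' : G.Adj x y') (hne : y ≠ y') :
    Anti G (comp G (HH S I \ {x}) y) (comp G (HH S I \ {x}) y') :=
  comp_anti_of_notMem (nbr_mem_diff hy e) fun hc =>
    hne (h.nbr_eq_of_mem_comp hx e e' (mem_comp_self (nbr_mem_diff hy e)) hc)

theorem hseg_diff_subset_comp (hx : x ∈ HH S I) (hv : v ∈ HH S I) :
    h.hseg x v \ {x} ⊆ comp G (HH S I \ {x}) v := by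
  by_cases e : x = v
  · subst e
    rw [h.hseg_self hx, Set.sdiff_self]
    exact Set.empty_subset _
  · exact (h.conn_hseg_diff_left hx hv e).subset_comp_of_mem
      (Set.sdiff_subset_sdiff_left (h.hseg_subset_H hx hv))
      ⟨h.right_mem_hseg hx hv, fun e' => e (Set.mem_singleton_iff.1 e').symm⟩

theorem mem_comp_hpath_one (hx : x ∈ HH S I) (hv : v ∈ HH S I) (hne : x ≠ v) :
    v ∈ comp G (HH S I \ {x}) (h.hpath x v 1) := by
  rw [comp_eq_of_mem (h.hseg_diff_subset_comp hx hv (h.hpath_one_mem hx hv hne))]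
  exact mem_comp_self ⟨hv, fun e' => hne (Set.mem_singleton_iff.1 e').symm⟩

/-- the neighbour of `x` towards `v` is the second vertex of the path -/
theorem mem_comp_nbr_iff {y : V} (hx : x ∈ HH S I) (hv : v ∈ HH S I) (hne : x ≠ v)
    (e : G.Adj x y) : v ∈ comp G (HH S I \ {x}) y ↔ y = h.hpath x v 1 :=
  ⟨fun a => h.nbr_eq_of_mem_comp hx e (h.adj_hpath_one hx hv hne) a
    (h.mem_comp_hpath_one hx hv hne), fun a => a ▸ h.mem_comp_hpath_one hx hv hne⟩

/-- (3) every vertex of `H - x` lies in the component of a neighbour of `x` -/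
theorem exists_nbr_comp (hx : x ∈ HH S I) (hv : v ∈ HH S I \ {x}) :
    ∃ y ∈ HH S I, G.Adj x y ∧ v ∈ comp G (HH S I \ {x}) y := by
  have hne : x ≠ v := fun e => hv.2 e.symm
  exact ⟨_, h.hpath_mem hx hv.1 (h.hlen_pos hx hv.1 hne), h.adj_hpath_one hx hv.1 hne,
    h.mem_comp_hpath_one hx hv.1 hne⟩

theorem existsUnique_nbr_comp (hx : x ∈ HH S I) (hv : v ∈ HH S I \ {x}) :
    ∃! y, y ∈ HH S I ∧ G.Adj x y ∧ v ∈ comp G (HH S I \ {x}) y := by
  obtain ⟨y, hy, e, a⟩ := h.exists_nbr_comp hx hv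
  exact ⟨y, ⟨hy, e, a⟩, fun y' ⟨_, e', a'⟩ => h.nbr_eq_of_mem_comp hx e' e a' a⟩

/-- if `y` is the neighbour of `x` towards `v`, the path from `x` is `x` followed by the path
from `y` -/
theorem hseg_of_nbr {y : V} (hx : x ∈ HH S I) (e : G.Adj x y)
    (a : v ∈ comp G (HH S I \ {x}) y) :
    h.hlen x v = h.hlen y v + 1 ∧ h.hseg x v = insert x (h.hseg y v) ∧
      ∀ k, k ≤ h.hlen y v → h.hpath y v k = h.hpath x v (1 + k) := by
  have hv := comp_subset _ _ a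
  have hne : x ≠ v := fun e => hv.2 e.symm
  have hp := h.hlen_pos hx hv.1 hne
  obtain rfl := (h.mem_comp_nbr_iff hx hv.1 hne e).1 a
  obtain ⟨b1, b2, b3⟩ := h.hpath_sub_right hx hv.1 (i := 1) hp
  refine ⟨by omega, ?_, fun k hk => b2 k (by omega)⟩
  rw [b3, ← h.hseg_diff_left hx hv.1, Set.insert_sdiff_singleton,
    Set.insert_eq_of_mem (h.left_mem_hseg hx hv.1)]

/-- the only neighbour of `x` in the component of its neighbour `y` is `y` -/
theorem eq_of_adj_of_mem_comp {y : V} (hx : x ∈ HH S I) (e : G.Adj x y) (e' : G.Adj x v)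
    (a : v ∈ comp G (HH S I \ {x}) y) : v = y :=
  h.nbr_eq_of_mem_comp hx e' e (mem_comp_self (comp_subset _ _ a)) a

/-- vertices behind different neighbours of `x` are joined through `x` -/
theorem mem_hseg_of_comp_nbr {y y' : V} (hx : x ∈ HH S I) (e : G.Adj x y) (e' : G.Adj x y')
    (hne : y ≠ y') (a : u ∈ comp G (HH S I \ {x}) y) (a' : v ∈ comp G (HH S I \ {x}) y') :
    x ∈ h.hseg u v := by
  rw [← h.comp_anti_iff (comp_subset _ _ a) (comp_subset _ _ a'), comp_eq_of_mem a,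
    comp_eq_of_mem a']
  exact h.comp_nbr_anti hx a.1.1 a'.1.1 e e' hne

/-- a connected subset of `H - x` lies behind one neighbour of `x` -/
theorem conn_subset_comp_nbr {T : Set V} (hx : x ∈ HH S I) (hT : Conn G T)
    (hTH : T ⊆ HH S I \ {x}) :
    ∃ y ∈ HH S I, G.Adj x y ∧ T ⊆ comp G (HH S I \ {x}) y := by
  obtain ⟨t, ht⟩ := hT.nonempty
  obtain ⟨y, hy, e, a⟩ := h.exists_nbr_comp hx (hTH ht)
  exact ⟨y, hy, e, hT.subset_comp hTH (Touch.of_mem ht a)⟩

/-- the path between two neighbours of `x` -/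
theorem hseg_of_common {a b : V} (hx : x ∈ HH S I) (ha : a ∈ HH S I) (hb : b ∈ HH S I)
    (ea : G.Adj x a) (eb : G.Adj x b) (hab : a ≠ b) :
    h.hlen a b = 2 ∧ h.hseg a b = {a, x, b} := by
  have hm := h.mem_hseg_of_comp_nbr hx ea eb hab (mem_comp_self (nbr_mem_diff ha ea))
    (mem_comp_self (nbr_mem_diff hb eb))
  obtain ⟨c1, c2, -⟩ := h.hseg_split ha hb hm
  rw [(h.hlen_eq_one_iff ha hx).2 ea.symm, (h.hlen_eq_one_iff hx hb).2 eb] at c1
  rw [h.hseg_of_adj ha hx ea.symm, h.hseg_of_adj hx hb eb] at c2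
  refine ⟨c1, c2.trans ?_⟩
  ext y
  simp only [Set.mem_union, Set.mem_insert_iff, Set.mem_singleton_iff]
  tauto

/-- Helly property for three connected subsets of `H` -/
theorem helly3 {T₁ T₂ T₃ : Set V} (h1 : Conn G T₁) (h2 : Conn G T₂) (h3 : Conn G T₃)
    (s1 : T₁ ⊆ HH S I) (s2 : T₂ ⊆ HH S I) (s3 : T₃ ⊆ HH S I) (t12 : (T₁ ∩ T₂).Nonempty)
    (t13 : (T₁ ∩ T₃).Nonempty) (t23 : (T₂ ∩ T₃).Nonempty) : ∃ m, m ∈ T₁ ∧ m ∈ T₂ ∧ m ∈ T₃ := by
  obtain ⟨a, a1, a2⟩ := t12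
  obtain ⟨b, b1, b3⟩ := t13
  obtain ⟨c, c2, c3⟩ := t23
  obtain ⟨m, m1, m2, m3, -⟩ := h.exists_median (s1 a1) (s1 b1) (s2 c2)
  exact ⟨m, h.hseg_subset h1 s1 a1 b1 m1, h.hseg_subset h2 s2 a2 c2 m2,
    h.hseg_subset h3 s3 b3 c3 m3⟩

/-- the two neighbours in `H` of a white vertex -/
theorem white_nbrs (hw : w ∈ S \ I) : ∃ a b, a ≠ b ∧ a ∈ I \ S ∧ b ∈ I \ S ∧ G.Adj w a ∧
    G.Adj w b ∧ ∀ y ∈ HH S I, G.Adj w y → y = a ∨ y = b := by
  obtain ⟨a, b, h1, h2, h3, h4, h5, h6⟩ := h.deg w hw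
  exact ⟨a, b, h1, h2, h3, h4, h5, fun y hy e => h6 y (h.black_of_adj_white hw hy e) e⟩

/-- any two distinct neighbours in `H` of a white vertex are all its neighbours in `H` -/
theorem white_nbr_eq (hw : w ∈ S \ I) {a b y : V} (hab : a ≠ b) (ha : a ∈ HH S I)
    (hb : b ∈ HH S I) (ea : G.Adj w a) (eb : G.Adj w b) (hy : y ∈ HH S I) (e : G.Adj w y) :
    y = a ∨ y = b := by
  obtain ⟨a', b', -, -, -, -, -, h6⟩ := h.white_nbrs hw
  rcases h6 a ha ea with rfl | rfl <;> rcases h6 b hb eb with rfl | rfl <;>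
    rcases h6 y hy e with rfl | rfl <;> simp_all

/-- the other neighbour of a white vertex -/
theorem white_other (hw : w ∈ S \ I) {a : V} (ha : a ∈ HH S I) (ea : G.Adj w a) :
    ∃ b, a ≠ b ∧ b ∈ I \ S ∧ G.Adj w b ∧ ∀ y ∈ HH S I, G.Adj w y → y = a ∨ y = b := by
  obtain ⟨a', b', h1, h2, h3, h4, h5, h6⟩ := h.white_nbrs hw
  rcases h6 a ha ea with rfl | rfl
  · exact ⟨b', h1, h3, h5, h6⟩
  · exact ⟨a', h1.symm, h2, h4, fun y hy e => (h6 y hy e).symm⟩

/-- (3) for a white vertex the two components cover `H - w` -/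
theorem white_cover (hw : w ∈ S \ I) {a b : V} (hab : a ≠ b) (ha : a ∈ HH S I)
    (hb : b ∈ HH S I) (ea : G.Adj w a) (eb : G.Adj w b) :
    comp G (HH S I \ {w}) a ∪ comp G (HH S I \ {w}) b = HH S I \ {w} := by
  refine Set.Subset.antisymm (Set.union_subset (comp_subset _ _) (comp_subset _ _)) fun v hv => ?_
  obtain ⟨y, hy, e, c⟩ := h.exists_nbr_comp (white_mem_HH hw) hv
  rcases h.white_nbr_eq hw hab ha hb ea eb hy e with rfl | rfl
  · exact Or.inl c
  · exact Or.inr c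

theorem white_split (hw : w ∈ S \ I) : ∃ a b, a ≠ b ∧ a ∈ I \ S ∧ b ∈ I \ S ∧ G.Adj w a ∧
    G.Adj w b ∧ (∀ y ∈ HH S I, G.Adj w y → y = a ∨ y = b) ∧
    Anti G (comp G (HH S I \ {w}) a) (comp G (HH S I \ {w}) b) ∧
    comp G (HH S I \ {w}) a ∪ comp G (HH S I \ {w}) b = HH S I \ {w} := by
  obtain ⟨a, b, h1, h2, h3, h4, h5, h6⟩ := h.white_nbrs hw
  exact ⟨a, b, h1, h2, h3, h4, h5, h6,
    h.comp_nbr_anti (white_mem_HH hw) (black_mem_HH h2) (black_mem_HH h3) h4 h5 h1,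
    h.white_cover hw h1 (black_mem_HH h2) (black_mem_HH h3) h4 h5⟩

/-- a white vertex strictly inside an induced path of `H` has no other neighbour in `H` -/
theorem white_inside {f : ℕ → V} {n i : ℕ} (hf : IsIP G f n) (fH : ∀ k, k ≤ n → f k ∈ HH S I)
    (h0 : 0 < i) (hi : i < n) (hw : f i ∈ S \ I) {y : V} (hy : y ∈ HH S I)
    (e : G.Adj (f i) y) : y = f (i - 1) ∨ y = f (i + 1) :=
  h.white_nbr_eq hw (hf.ne (by omega) (by omega) (by omega)) (fH _ (by omega)) (fH _ (by omega))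
    (hf.adj_pred h0 hi.le) (hf.adj_succ hi) hy e

/-! ### outside neighbours -/

/-- (4) a neighbour of a black vertex is in `H` iff it is in `S` -/
theorem black_nbr_mem_iff {y : V} (hx : x ∈ I \ S) (e : G.Adj x y) : y ∈ HH S I ↔ y ∈ S :=
  ⟨fun hy => (h.white_of_adj_black hx hy e).1,
    fun hy => Or.inr ⟨hy, fun hy' => h.stI x hx.1 y hy' e⟩⟩

/-- a neighbour of a white vertex is in `H` iff it is in `I` -/
theorem white_nbr_mem_iff {y : V} (hw : w ∈ S \ I) (e : G.Adj w y) : y ∈ HH S I ↔ y ∈ I :=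
  ⟨fun hy => (h.black_of_adj_white hw hy e).1,
    fun hy => Or.inl ⟨hy, fun hy' => h.stS w hw.1 y hy' e⟩⟩

theorem black_nbr_diff (hx : x ∈ I \ S) :
    {y | G.Adj x y} \ HH S I = {y | G.Adj x y} \ S := by
  ext y
  constructor
  · rintro ⟨e, hy⟩
    exact ⟨e, fun c => hy ((h.black_nbr_mem_iff hx e).2 c)⟩
  · rintro ⟨e, hy⟩
    exact ⟨e, fun c => hy ((h.black_nbr_mem_iff hx e).1 c)⟩

theorem black_cN_diff (hx : x ∈ I \ S) : cN G {x} \ HH S I = (cN G {x} \ S) \ {x} := by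
  ext y
  simp only [Set.mem_sdiff, mem_cN_singleton, Set.mem_singleton_iff]
  constructor
  · rintro ⟨rfl | e, hy⟩
    · exact (hy (black_mem_HH hx)).elim
    · exact ⟨⟨Or.inr e, fun c => hy ((h.black_nbr_mem_iff hx e.symm).2 c)⟩, e.ne⟩
  · rintro ⟨⟨rfl | e, hy⟩, hne⟩
    · exact (hne rfl).elim
    · exact ⟨Or.inr e, fun c => hy ((h.black_nbr_mem_iff hx e.symm).1 c)⟩

omit h in
theorem diff_HH_left : S \ HH S I = S ∩ I := by
  ext y
  simp only [Set.mem_sdiff, mem_HH, Set.mem_inter_iff]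
  tauto

omit h in
theorem diff_HH_right : I \ HH S I = S ∩ I := by
  ext y
  simp only [Set.mem_sdiff, mem_HH, Set.mem_inter_iff]
  tauto

theorem anti_inter : Anti G (S ∩ I) (HH S I) := by
  rintro s ⟨s1, s2⟩ y (hy | hy)
  · exact ⟨fun e => hy.2 (e ▸ s1), h.stI s s2 y hy.1⟩
  · exact ⟨fun e => hy.2 (e ▸ s2), h.stS s s1 y hy.1⟩

/-- (4) `S - H` is anticomplete to `H` -/
theorem anti_S_diff : Anti G (S \ HH S I) (HH S I) := by
  rw [diff_HH_left]
  exact h.anti_inter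

theorem anti_I_diff : Anti G (I \ HH S I) (HH S I) := by
  rw [diff_HH_right]
  exact h.anti_inter

end

end Setup
end Pool.Agent.Ehf
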