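import Pool.Agent.MP_3ad207_lc.H46.Spec5
import Pool.Agent.MP_3ad207_lc.H82.Tree

/-! Many marks in a tree contain a star or a spine; hence WIDTH follows from STAR and SPINE. -/

set_option autoImplicit false

namespace Pool.Agent.Ehf

variable {V : Type*} {G : SimpleGraph V} {S I : Set V}

/-- the number of marks that forces a star of size `a` or a spine of size `b` -/
def ssN (a : ℕ) : ℕ → ℕ
  | 0 => 0
  | b + 1 => a * ssN a b + 2

theorem comp_mono_set {U U' : Set V} (h : U ⊆ U') (v : V) : comp G U v ⊆ comp G U' v :=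
  fun _ hx => ⟨h hx.1, hx.2.mono h⟩

namespace Setup

/-- without a star, many marks in a rooted subtree hang at different vertices of a path that
starts at the root -/
theorem spine_of_no_star [Finite V] (h : Setup G S I) {a : ℕ} {M₀ : Finset V}
    (hno : ∀ x ∈ HH S I, ∀ M' ⊆ M₀, x ∉ M' → Set.InjOn (fun p => h.hpath x p 1) (M' : Set V) →
      M'.card < a) (b : ℕ) :
    ∀ (U : Set V) (y : V) (M : Finset V), Conn G U → U ⊆ HH S I → y ∈ U → M ⊆ M₀ →
      (M : Set V) ⊆ U → ssN a b ≤ M.card →
      ∃ v ∈ U, ∃ M' ⊆ M, ∃ s : V → V, b ≤ M'.card ∧ Set.InjOn s (M' : Set V) ∧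
        ∀ p ∈ M', s p ∈ h.hseg y v ∧ p ∈ comp G ((U \ h.hseg y v) ∪ {s p}) (s p) := by
  classical
  induction b with
  | zero =>
    intro U y M _ _ hy _ _ _
    exact ⟨y, hy, ∅, Finset.empty_subset _, id, le_rfl, by simp, by simp⟩
  | succ b ihb =>
    intro U
    induction hn : U.ncard using Nat.strong_induction_on generalizing U with
    | _ n ihn =>
      intro y M hU hUH hy hM0 hMU hcard
      have hyH := hUH hy
      -- the branch of a vertex
      have br : ∀ p ∈ U, p ≠ y → G.Adj y (h.hpath y p 1) ∧ h.hpath y p 1 ∈ U \ {y} ∧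
          p ∈ comp G (U \ {y}) (h.hpath y p 1) := by
        intro p hp hne
        have hs : h.hseg y p \ {y} ⊆ U \ {y} :=
          Set.sdiff_subset_sdiff_left (h.hseg_subset hU hUH hy hp)
        have h1 := h.hpath_one_mem hyH (hUH hp) hne.symm
        exact ⟨h.adj_hpath_one hyH (hUH hp) hne.symm, hs h1,
          (h.conn_hseg_diff_left hyH (hUH hp) hne.symm).subset_comp_of_mem hs h1
            ⟨h.right_mem_hseg hyH (hUH hp), hne⟩⟩
      have sub : ∀ z, comp G (U \ {y}) z ⊆ comp G (HH S I \ {y}) z := fun z =>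
        comp_mono_set (Set.sdiff_subset_sdiff_left hUH) z
      -- a spine in a branch is a spine from `y`
      have up : ∀ z v t p, G.Adj y z → v ∈ comp G (U \ {y}) z → t ∈ h.hseg z v →
          p ∈ comp G ((comp G (U \ {y}) z \ h.hseg z v) ∪ {t}) t →
          t ∈ h.hseg y v ∧ p ∈ comp G ((U \ h.hseg y v) ∪ {t}) t := by
        intro z v t p e hv ht hp
        rw [(h.hseg_of_nbr hyH e (sub z hv)).2.1]
        refine ⟨Or.inr ht, comp_mono_set (Set.union_subset_union_left _ ?_) t hp⟩
        rintro x ⟨x1, x2⟩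
        have := comp_subset _ _ x1
        exact ⟨this.1, fun hc => hc.elim this.2 x2⟩
      rw [ssN] at hcard
      by_cases hall : ∃ z, ∀ p ∈ M, p ≠ y ∧ h.hpath y p 1 = z
      · obtain ⟨z, hz⟩ := hall
        obtain ⟨p₀, hp₀⟩ : M.Nonempty := Finset.card_pos.1 (by omega)
        obtain ⟨e, hzU, -⟩ := br p₀ (hMU hp₀) (hz p₀ hp₀).1
        rw [(hz p₀ hp₀).2] at e hzU
        have hlt : (comp G (U \ {y}) z).ncard < n := by
          rw [← hn]
          refine Set.ncard_lt_ncard ⟨(comp_subset _ _).trans Set.sdiff_subset, fun hc => ?_⟩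
          exact (comp_subset _ _ (hc hy)).2 rfl
        obtain ⟨v, hv, M', hM', s, h1, h2, h3⟩ := ihn _ hlt _ rfl z M (conn_comp hzU)
          (((comp_subset _ _).trans Set.sdiff_subset).trans hUH) (mem_comp_self hzU) hM0
          (fun p hp => (hz p hp).2 ▸ (br p (hMU hp) (hz p hp).1).2.2) (by rw [ssN]; exact hcard)
        exact ⟨v, (comp_subset _ _ hv).1, M', hM', s, h1, h2,
          fun p hp => up z v _ p e hv (h3 p hp).1 (h3 p hp).2⟩
      · obtain ⟨u, u1, u2, u3⟩ := Finset.exists_subset_injOn_image_eq_of_surjOn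
          (f := fun p => h.hpath y p 1) (M.erase y : Set V)
          ((M.erase y).image fun p => h.hpath y p 1) (by
            intro z hz
            simpa using hz)
        have u1' : u ⊆ M.erase y := Finset.coe_subset.1 u1
        have hlt := hno y hyH u (u1'.trans ((Finset.erase_subset _ _).trans hM0))
          (fun hc => Finset.notMem_erase y M (u1' hc)) u2
        rw [← Finset.card_image_of_injOn u2, u3] at hlt
        have hce : M.card - 1 ≤ (M.erase y).card := Finset.pred_card_le_card_erase
        obtain ⟨z, hz, hfib⟩ := Finset.exists_lt_card_fiber_of_mul_lt_card_of_maps_to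
          (f := fun p => h.hpath y p 1) (s := M.erase y)
          (t := (M.erase y).image fun p => h.hpath y p 1) (n := ssN a b)
          (fun p hp => Finset.mem_image_of_mem _ hp) (by
            have := Nat.mul_le_mul_right (ssN a b) hlt.le
            omega)
        obtain ⟨p₀, hp₀, hz⟩ := Finset.mem_image.1 hz
        rw [Finset.mem_erase] at hp₀
        obtain ⟨e, hzU, -⟩ := br p₀ (hMU hp₀.2) hp₀.1
        rw [hz] at e hzU
        obtain ⟨v, hv, M', hM', s, h1, h2, h3⟩ := ihb _ z
          ((M.erase y).filter fun p => h.hpath y p 1 = z) (conn_comp hzU)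
          (((comp_subset _ _).trans Set.sdiff_subset).trans hUH) (mem_comp_self hzU)
          ((Finset.filter_subset _ _).trans ((Finset.erase_subset _ _).trans hM0))
          (by
            intro p hp
            rw [Finset.mem_coe, Finset.mem_filter, Finset.mem_erase] at hp
            exact hp.2 ▸ (br p (hMU hp.1.2) hp.1.1).2.2) hfib.le
        push Not at hall
        obtain ⟨q, hq, hqz⟩ := hall z
        have hqM' : q ∉ M' := by
          intro hc
          have := hM' hc
          rw [Finset.mem_filter, Finset.mem_erase] at this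
          exact hqz this.1.1 this.2
        have hzv : h.hseg z v ⊆ comp G (U \ {y}) z :=
          h.hseg_subset (conn_comp hzU) (((comp_subset _ _).trans Set.sdiff_subset).trans hUH)
            (mem_comp_self hzU) hv
        have hsy : ∀ p ∈ M', s p ≠ y := fun p hp => (comp_subset _ _ (hzv (h3 p hp).1)).2
        refine ⟨v, (comp_subset _ _ hv).1, insert q M', ?_, fun p => if p = q then y else s p,
          ?_, ?_, ?_⟩
        · exact Finset.insert_subset hq
            (hM'.trans ((Finset.filter_subset _ _).trans (Finset.erase_subset _ _)))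
        · rw [Finset.card_insert_of_notMem hqM']
          omega
        · intro p hp p' hp' e
          simp only [Finset.coe_insert, Set.mem_insert_iff, Finset.mem_coe] at hp hp'
          by_cases a1 : p = q <;> by_cases a2 : p' = q
          · rw [a1, a2]
          · simp only [a1, a2, if_true, if_false] at e
            exact (hsy p' (hp'.resolve_left a2) e.symm).elim
          · simp only [a1, a2, if_true, if_false] at e
            exact (hsy p (hp.resolve_left a1) e).elim
          · simp only [a1, a2, if_false] at e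
            exact h2 (hp.resolve_left a1) (hp'.resolve_left a2) e
        · intro p hp
          by_cases a1 : p = q
          · subst a1
            simp only [if_true]
            have hvH := hUH (comp_subset _ _ hv).1
            have hpH := hUH (hMU hq)
            refine ⟨h.left_mem_hseg hyH hvH, ?_⟩
            have hs : h.hseg y p ⊆ (U \ h.hseg y v) ∪ {y} := by
              intro t ht
              by_cases a2 : t = y
              · exact Or.inr a2
              refine Or.inl ⟨h.hseg_subset hU hUH hy (hMU hq) ht, fun hc => ?_⟩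
              rw [(h.hseg_of_nbr hyH e (sub z hv)).2.1] at hc
              have hc' := sub z (hzv (hc.resolve_left a2))
              have hpy : p ≠ y := by
                rintro rfl
                rw [h.hseg_self hyH] at ht
                exact a2 ht
              have t1 := h.hseg_diff_subset_comp hyH hpH ⟨ht, a2⟩
              have t2 : p ∈ comp G (HH S I \ {y}) z := by
                rw [← comp_eq_of_mem hc', comp_eq_of_mem t1]
                exact mem_comp_self ⟨hpH, hpy⟩
              exact hqz hpy ((h.mem_comp_nbr_iff hyH hpH hpy.symm e).1 t2).symm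
            exact (h.conn_hseg hyH hpH).subset_comp_of_mem hs (h.left_mem_hseg hyH hpH)
              (h.right_mem_hseg hyH hpH)
          · simp only [a1, if_false]
            have hp' := (Finset.mem_insert.1 hp).resolve_left a1
            exact up z v _ p e hv (h3 p hp').1 (h3 p hp').2

/-- many marks contain a star at a black vertex or a spine -/
theorem star_or_spine [Finite V] (h : Setup G S I) (a b : ℕ) (M : Finset V)
    (hM : (M : Set V) ⊆ HH S I) (hc : ssN (max a 3) b ≤ M.card) :
    (∃ M' ⊆ M, ∃ (x : V) (w : V → V), x ∈ I \ S ∧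
      (∀ p ∈ M', w p ∈ S \ I ∧ G.Adj x (w p) ∧ p ∈ comp G (HH S I \ {x}) (w p)) ∧
      Set.InjOn w (M' : Set V) ∧ a ≤ M'.card) ∨
    (∃ M' ⊆ M, ∃ (P : ℕ → V) (n : ℕ) (st : V → ℕ), IsIP G P n ∧ (∀ i, i ≤ n → P i ∈ HH S I) ∧
      (∀ p ∈ M', st p ≤ n ∧ p ∈ comp G ((HH S I \ seg P 0 n) ∪ {P (st p)}) (P (st p))) ∧
      Set.InjOn st (M' : Set V) ∧ b ≤ M'.card) := by
  classical
  by_cases hno : ∀ x ∈ HH S I, ∀ M' ⊆ M, x ∉ M' →
      Set.InjOn (fun p => h.hpath x p 1) (M' : Set V) → M'.card < max a 3
  · right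
    obtain ⟨y, hy⟩ := h.conn.nonempty
    obtain ⟨v, hv, M', hM', s, h1, h2, h3⟩ :=
      h.spine_of_no_star hno b _ y M h.conn le_rfl hy le_rfl hM hc
    have key : ∀ p ∈ M', h.hlen y (s p) ≤ h.hlen y v ∧ h.hpath y v (h.hlen y (s p)) = s p :=
      fun p hp => h.hpath_hlen_of_mem hy hv (h3 p hp).1
    refine ⟨M', hM', h.hpath y v, h.hlen y v, fun p => h.hlen y (s p), h.hpath_isIP hy hv,
      fun i hi => h.hpath_mem hy hv hi, fun p hp => ⟨(key p hp).1, ?_⟩, ?_, h1⟩
    · simp only [(key p hp).2]
      exact (h3 p hp).2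
    · intro p hp p' hp' e
      refine h2 hp hp' ?_
      rw [← (key p hp).2, ← (key p' hp').2]
      exact congrArg _ e
  · left
    push Not at hno
    obtain ⟨x, hx, M', hM', hxM, hinj, hcard⟩ := hno
    have hne : ∀ p ∈ M', x ≠ p := fun p hp e => hxM (e ▸ hp)
    have hH : ∀ p ∈ M', p ∈ HH S I := fun p hp => hM (hM' hp)
    have hw : ∀ p ∈ M', h.hpath x p 1 ∈ HH S I := fun p hp =>
      h.hpath_mem hx (hH p hp) (h.hlen_pos hx (hH p hp) (hne p hp))
    have hb : x ∈ I \ S := by
      refine hx.resolve_right fun hwx => ?_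
      obtain ⟨c, d, -, -, -, -, -, h6⟩ := h.white_nbrs hwx
      have : M'.card ≤ ({c, d} : Finset V).card := by
        refine Finset.card_le_card_of_injOn _ (fun p hp => ?_) hinj
        simpa using h6 _ (hw p hp) (h.adj_hpath_one hx (hH p hp) (hne p hp))
      have h2 := Finset.card_le_two (a := c) (b := d)
      omega
    exact ⟨M', hM', x, fun p => h.hpath x p 1, hb, fun p hp =>
      ⟨h.white_of_adj_black hb (hw p hp) (h.adj_hpath_one hx (hH p hp) (hne p hp)),
        h.adj_hpath_one hx (hH p hp) (hne p hp), h.mem_comp_hpath_one hx (hH p hp) (hne p hp)⟩,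
      hinj, by omega⟩

end Setup

theorem Cut.mono {U U' A B : Set V} {D MA MB : Finset V} {k k' : ℕ}
    (h : Cut G S I U D A B MA MB k) (hU : U' ⊆ U) (hk : k ≤ k') : Cut G S I U' D A B MA MB k' :=
  ⟨h.sub, h.cover, h.anti, h.ma, h.mb, h.nuB.mono hU le_rfl le_rfl hk,
    h.nuA.mono hU le_rfl le_rfl hk⟩

theorem CutOf.mono {Wo Wo' : Finset V → Set V} {M M' : Finset V} {m c c' k k' : ℕ}
    (h : CutOf G S I Wo M m c k) (hW : ∀ D, HH S I ∪ Wo D ⊆ HH S I ∪ Wo' D) (hM : M ⊆ M')
    (hc : c ≤ c') (hk : k ≤ k') : CutOf G S I Wo' M' m c' k' := by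
  obtain ⟨D, MA, MB, A, B, h1, h2, h3, h4, h5, h6⟩ := h
  exact ⟨D, MA, MB, A, B, h1.trans hc, h2.trans hM, h3.trans hM, h4, h5,
    h6.mono (Set.compl_subset_compl.2 (hW D)) hk⟩

theorem widthStmt_of (h1 : StarStmt) (h2 : SpineStmt) : WidthStmt := by
  obtain ⟨N₁, c₁, k₁, h1⟩ := h1
  obtain ⟨N₂, c₂, k₂, h2⟩ := h2
  refine ⟨fun m => ssN (max (N₁ m) 3) (N₂ m), max (max c₁ c₂) 1, max k₁ k₂, le_max_right _ _, ?_⟩
  intro V _ G S I h Wo hW m M hM hc
  rcases h.star_or_spine (N₁ m) (N₂ m) M hM hc with
    ⟨M', hM', x, w, a1, a2, a3, a4⟩ | ⟨M', hM', P, n, st, a1, a2, a3, a4, a5⟩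
  · refine (h1 V G S I h m M' x w a1 a2 a3 a4).mono (Wo' := Wo) (fun D z hz => ?_) hM'
      ((le_max_left _ _).trans (le_max_left _ _)) (le_max_left _ _)
    by_cases hH : z ∈ HH S I
    · exact Or.inl hH
    · exact Or.inr (hW.nb D z hH (hz.resolve_left hH))
  · exact (h2 V G S I h Wo hW m M' P n st a1 a2 a3 a4 a5).mono (fun _ => le_rfl) hM'
      ((le_max_right _ _).trans (le_max_left _ _)) (le_max_right _ _)
end Pool.Agent.Ehf
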