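import Pool.Agent.MP_3ad207_lc.H43.LinSpec
import Pool.Agent.MP_3ad207_lc.H82.Sub
import Pool.Agent.MP_3ad207_lc.H82.Width

/-! The balanced white vertex, the wall, and WIDTH from STAR and LIN. -/

set_option autoImplicit false

namespace Pool.Agent.Ehf

theorem balStmt : BalStmt := by
  classical
  intro V _ G S I h M m a hM hno hc
  obtain ⟨p, A, B, -, -, s, -, -, -, -, -, -, -, -, l1, l2⟩ :=
    h.exists_balanced_sides (m := m) hM hno (le_trans (by nlinarith) hc)
  exact ⟨p, A, B, _, _, s, Finset.filter_subset _ _, Finset.filter_subset _ _,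
    fun x hx => (Finset.mem_filter.1 hx).2, fun x hx => (Finset.mem_filter.1 hx).2, l1, l2⟩

theorem wallStmt : WallStmt := by
  intro V _ G S I C Low Cen _ hC _ hA hCen hCH a1 a2
  set W : Set V := Cen ∪ (HC G S I C \ Low) ∪ (Free G S I (C : Set V) \ cN G Low) with hW
  obtain ⟨c, hc⟩ := hCen.nonempty
  have s1 : Cen ⊆ W := fun _ hx => Or.inl (Or.inl hx)
  have s2 : HC G S I C \ Low ⊆ W := fun _ hx => Or.inl (Or.inr hx)
  have wLow : Anti G W Low :=
    (a1.union_left hA).union_left (anti_iff.2 fun _ hx => hx.2)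
  have wC : Anti G W ((C : Set V) ∩ (I \ S)) := by
    refine (a2.union_left ?_).union_left ?_
    · rintro x ⟨⟨-, x2, x3⟩, -⟩ y ⟨y1, y2⟩
      exact ⟨fun e => x2 (e ▸ y1), x3 y y1 y2⟩
    · rintro x ⟨⟨x1, x2⟩, -⟩ y ⟨y1, -⟩
      exact ⟨fun e => x1 (e ▸ hC y1), fun e => x2 ⟨y, y1, e⟩⟩
  have hK := comp_subset (G := G) W c
  have key : ∀ x ∈ HC G S I C \ comp G W c, ∀ y ∈ comp G W c, x ≠ y ∧ ¬ G.Adj x y := by
    rintro x ⟨x1, x2⟩ y hy
    refine ⟨fun e => x2 (e ▸ hy), fun e => ?_⟩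
    by_cases hl : x ∈ Low
    · exact wLow.not_adj (hK hy) hl e.symm
    · exact x2 (mem_comp_of_adj hy e.symm (s2 ⟨x1, hl⟩))
  refine ⟨comp G W c, conn_comp (s1 hc), hCen.subset_comp_of_mem s1 hc, wLow.mono hK le_rfl,
    wC.mono hK le_rfl, ?_, ?_, fun x hx y hy => key x hx y hy.2, ?_, ?_⟩
  · intro v hv hvC
    rcases hK hv with (a | a) | a
    · exact a
    · exact (a.1.2.1 hvC).elim
    · exact (a.1.1 (hC hvC)).elim
  · intro v hv hvH
    rcases hK hv with (a | a) | a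
    · exact (hvH (hCH a)).elim
    · exact (hvH a.1.1).elim
    · exact a.1.2
  · intro T hT hTs ht
    exact hT.subset_comp (hTs.trans s2) ht
  · intro Y hY hYs t1 t2
    by_contra hn
    rw [not_touch] at hn
    have hYW : Y ⊆ W := fun y hy => Or.inr ⟨hYs hy, anti_iff.1 hn y hy⟩
    have hYK := hY.subset_comp hYW (t2.mono le_rfl Set.inter_subset_right)
    exact not_touch.2 (Anti.symm fun x hx y hy => key x hx y (hYK hy)) t1

theorem widthStmt_of_lin (h1 : StarStmt) (h2 : LinStmt) : WidthStmt := by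
  obtain ⟨N₁, c₁, k₁, h1⟩ := h1
  obtain ⟨N₂, c₂, k₂, h2⟩ := h2
  refine ⟨fun m => N₂ m (N₁ m), max (max c₁ c₂) 1, max k₁ k₂, le_max_right _ _, ?_⟩
  intro V _ G S I h Wo hW m M hM hc
  by_cases hno : h.NoStar M (N₁ m)
  · exact (h2 V G S I h Wo hW m _ M hM hno hc).mono (fun _ => le_rfl) le_rfl
      ((le_max_right _ _).trans (le_max_left _ _)) (le_max_right _ _)
  · unfold Setup.NoStar at hno
    push Not at hno
    obtain ⟨x, a1, M', hM', w, a2, a3, a4⟩ := hno
    refine (h1 V G S I h m M' x w a1 a2 a3 a4).mono (Wo' := Wo) (fun D z hz => ?_) hM'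
      ((le_max_left _ _).trans (le_max_left _ _)) (le_max_left _ _)
    by_cases hH : z ∈ HH S I
    · exact Or.inl hH
    · exact Or.inr (hW.nb D z hH (hz.resolve_left hH))
end Pool.Agent.Ehf
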