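import Pool.Agent.MP_3ad207_lc.H43.LinSpec
import Pool.Agent.MP_3ad207_lc.H82.Sub
import Pool.Agent.MP_3ad207_lc.H24.Zone

/-! The lemma (X) and its counted form. -/

set_option autoImplicit false

namespace Pool.Agent.Ehf

variable {V : Type*} {G : SimpleGraph V}

namespace Pieces

variable {H B₁ B₂ B₃ B₄ : Set V} {w₁ w₂ w₃ : V}

theorem sub1 (p : Pieces G H w₁ w₂ w₃ B₁ B₂ B₃ B₄) : B₁ ⊆ H \ {w₁, w₂, w₃} :=
  fun _ hx => p.cover ▸ Or.inl (Or.inl (Or.inl hx))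

theorem sub2 (p : Pieces G H w₁ w₂ w₃ B₁ B₂ B₃ B₄) : B₂ ⊆ H \ {w₁, w₂, w₃} :=
  fun _ hx => p.cover ▸ Or.inl (Or.inl (Or.inr hx))

theorem sub3 (p : Pieces G H w₁ w₂ w₃ B₁ B₂ B₃ B₄) : B₃ ⊆ H \ {w₁, w₂, w₃} :=
  fun _ hx => p.cover ▸ Or.inl (Or.inr hx)

theorem sub4 (p : Pieces G H w₁ w₂ w₃ B₁ B₂ B₃ B₄) : B₄ ⊆ H \ {w₁, w₂, w₃} :=
  fun _ hx => p.cover ▸ Or.inr hx

theorem mem_cases (p : Pieces G H w₁ w₂ w₃ B₁ B₂ B₃ B₄) {x : V} (hx : x ∈ H) :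
    x ∈ ({w₁, w₂, w₃} : Set V) ∨ x ∈ B₁ ∨ x ∈ B₂ ∨ x ∈ B₃ ∨ x ∈ B₄ := by
  by_cases e : x ∈ ({w₁, w₂, w₃} : Set V)
  · exact Or.inl e
  · have : x ∈ B₁ ∪ B₂ ∪ B₃ ∪ B₄ := p.cover ▸ ⟨hx, e⟩
    simp only [Set.mem_union] at this
    tauto

end Pieces

theorem xStmt : XStmt := by
  intro V _ G S I h u ga gb L R Y₁ Y₂ Y₃ s ha wa hb wb j1 j2 j3 a12 a13 a23
  have p := s.pieces ha hb wa wb
  have hw : ({ga, u, gb} : Set V) ⊆ HH S I := by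
    rintro x (rfl | rfl | rfl)
    · exact white_mem_HH wa
    · exact s.uH
    · exact white_mem_HH wb
  have k : ∀ {Y P Q Z : Set V}, h.Joins Y P Q → Z ⊆ HH S I → (∀ z ∈ Z, z ∉ P) →
      (∀ z ∈ Z, z ∉ Q) → Anti G Y Z := fun j hZ h1 h2 =>
    j.anti.mono le_rfl fun z hz => ⟨hZ hz, fun e => e.elim (h1 z hz) (h2 z hz)⟩
  have n1 : ∀ z ∈ ({ga, u, gb} : Set V), z ∉ h.SubO u ga := fun z hz c => (p.sub1 c).2 hz
  have n2 : ∀ z ∈ ({ga, u, gb} : Set V), z ∉ L \ h.Sub u ga := fun z hz c => (p.sub2 c).2 hz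
  have n3 : ∀ z ∈ ({ga, u, gb} : Set V), z ∉ R \ h.Sub u gb := fun z hz c => (p.sub3 c).2 hz
  have n4 : ∀ z ∈ ({ga, u, gb} : Set V), z ∉ h.SubO u gb := fun z hz c => (p.sub4 c).2 hz
  have s1 := p.sub1.trans Set.sdiff_subset
  have s2 := p.sub2.trans Set.sdiff_subset
  have s3 := p.sub3.trans Set.sdiff_subset
  have s4 := p.sub4.trans Set.sdiff_subset
  exact h.ehf.xpath p.c1 p.c2 p.c3 p.c4 p.a12 p.a13 p.a14 p.a23 p.a24 p.a34 p.w12 p.w13 p.w23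
    p.s11 p.s12 (anti_union_right.1 p.j1).1 (anti_union_right.1 p.j1).2
    p.s22 p.s23 (anti_union_right.1 p.j2).1 (anti_union_right.1 p.j2).2
    p.s33 p.s34 (anti_union_right.1 p.j3).1 (anti_union_right.1 p.j3).2
    j1.conn j3.conn j2.conn a13 a12 a23.symm (k j1 hw n1 n3) (k j3 hw n1 n4) (k j2 hw n2 n4)
    j1.tP j1.tQ (k j1 s2 (fun _ => p.a12.symm.notMem) fun _ => p.a23.notMem)
    (k j1 s4 (fun _ => p.a14.symm.notMem) fun _ => p.a34.symm.notMem)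
    j3.tP j3.tQ (k j3 s2 (fun _ => p.a12.symm.notMem) fun _ => p.a24.notMem)
    (k j3 s3 (fun _ => p.a13.symm.notMem) fun _ => p.a34.notMem)
    j2.tP j2.tQ (k j2 s1 (fun _ => p.a12.notMem) fun _ => p.a14.notMem)
    (k j2 s3 (fun _ => p.a23.symm.notMem) fun _ => p.a34.notMem)

theorem crossStmt_of (hX : XStmt) : CrossStmt := by
  intro V _ G S I h u ga gb L R Y Z s ha wa hb wb jY jZ aY aZ aYZ t ht hT
  have p := s.pieces ha hb wa wb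
  by_contra hc
  obtain ⟨t1, h11, h12, h13⟩ := h.ehf.pure p.c2 p.c4 p.c1 p.a24 p.a12.symm p.a14.symm ht
    fun i hi => (hT i hi).2
  obtain ⟨t2, h21, h22, h23⟩ := h.ehf.pure p.c2 p.c4 p.c3 p.a24 p.a23 p.a34.symm (ht.mono h11)
    fun i hi => (hT i (h11 hi)).2
  obtain ⟨i, hi, j, -, k, -, b1, b2⟩ := h.ehf.pick_two (t := Finset.univ) (E := Y)
    (t' := Finset.univ) (E' := Z) ⟨fun j _ => (jY j).conn, fun j _ k _ => aY j k⟩ (by simp)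
    ⟨fun j _ => (jZ j).conn, fun j _ k _ => aZ j k⟩ (by simp) (ht.mono (h21.trans h11)) (by omega)
  have hi' := h11 (h21 hi)
  refine hX V G S I h u ga gb L R (Y j) i (Z k) s ha wa hb wb (jY j)
    ⟨ht.1 i hi', fun v hv => ((hT i hi').1 hv).1, (hT i hi').2.1, (hT i hi').2.2, ?_⟩ (jZ k)
    b1.symm (aYZ j k) b2
  rintro v hv x ⟨x1, x2⟩
  have hf := (hT i hi').1 hv
  rcases p.mem_cases x1 with e | e | e | e | e
  · refine ⟨fun c => hf.1 (c ▸ x1), fun c => hf.2 ⟨x, ?_, c⟩⟩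
    simp only [Set.mem_insert_iff, Set.mem_singleton_iff] at e ⊢
    tauto
  · exact h13 i (h21 hi) v hv x e
  · exact (x2 (Or.inl e)).elim
  · exact h23 i hi v hv x e
  · exact (x2 (Or.inr e)).elim

theorem crossStmt : CrossStmt := crossStmt_of xStmt
end Pool.Agent.Ehf
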