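import Pool.Agent.MP_3ad207_lc.H43.LinRev

/-! The gate theorem from its two cases. -/

set_option autoImplicit false

namespace Pool.Agent.Ehf

theorem gateStmt (h1 : LadderStmt) (h2 : FanStmt) : GateStmt := by
  obtain ⟨c₁, k₁, K₁, h1⟩ := h1
  obtain ⟨c₂, k₂, K₂, h2⟩ := h2
  refine ⟨max c₁ c₂, max k₁ k₂, max K₁ K₂, ?_⟩
  intro V _ G S I h Wo hW p y y' A B F al be s hy hy' m
  rcases m.1.kl with a | a
  · rcases m.1.kr with b | b
    · exact (h1 V G S I h Wo hW p y y' A B F al be s hy hy' m a b).mono (le_max_left _ _)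
        (le_max_left _ _) (le_max_left _ _)
    · exact (h2 V G S I h Wo hW p y' y B A _ be al s.symm hy' hy m.rev b).symm.mono
        (le_max_right _ _) (le_max_right _ _) (le_max_right _ _)
  · exact (h2 V G S I h Wo hW p y y' A B F al be s hy hy' m a).mono (le_max_right _ _)
      (le_max_right _ _) (le_max_right _ _)
end Pool.Agent.Ehf
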