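import Pool.Agent.MP_3ad207_lc.H43.LinBasic

/-! The door in a window of a spread side. -/

set_option autoImplicit false

namespace Pool.Agent.Ehf

namespace PosAux

/-- few ears inside the side `A` jump over two whites `oa`, `ob` that are separated and followed
by members of a spread family -/
theorem jump (hC : CrossStmt) {V : Type} [Finite V] {G : SimpleGraph V} {S I : Set V}
    {h : Setup G S I} {p : V} {A B : Set V} {n : ℕ} {F : ℕ → Ear V} {al be : ℕ → V}
    (s : h.Sides p A B) (c : h.Clean p A B n F al be)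
    (P : h.Spread p n (fun i => (F i).set) al) {oa ob : V} {i j : ℕ} (wa : oa ∈ S \ I)
    (wb : ob ∈ S \ I) (ha : oa ∈ A) (a1 : al i ∈ h.Sub p oa) (b0 : ob ∈ h.Sub p (al j))
    (b1 : al (j + 1) ∈ h.Sub p ob) (hij : i + 4 ≤ j) (hj : j + 5 ≤ n) :
    h.Few (fun E => E.a ∈ h.SubO p ob ∧ E.b ∈ HH S I \ h.Sub p oa ∧ Anti G E.set (B ∪ {p})) 68 := by
  have hp := s.uH
  have hba : ob ∈ h.SubO p oa :=
    h.sub_subset_subO hp (P.node_subO c.nl s a1 (by omega : i < j) (by omega)) b0
  have hna := h.not_mem_sub_of_mem_subO hp hba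
  have haH := white_mem_HH wa
  have s' := (h.sides_of_white hp wa (s.ne ha)).symm
  have hp' : p ∈ HH S I \ h.Sub p oa := ⟨hp, s.u_not_mem_sub ha⟩
  have e1 : h.SubO oa p = B := (s.symm.eq_subO ha).symm
  have e2 : h.Sub oa ob = h.Sub p ob := h.sub_eq_of_root hp haH hna
  have e3 : h.SubO oa ob = h.SubO p ob := h.subO_eq_of_root hp haH hna
  have nu := hC V G S I h oa p ob _ _ (fun t : Fin 3 => (F (i + 1 + t)).set)
    (fun t : Fin 3 => (F (j + 2 + t)).set) s' hp' s.white hba wb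
    (fun t => by
      have k1 : i + 1 + t < n := by omega
      have q1 := P.top_subO c.nl s a1 (by omega : i < i + 1 + t) k1
      have q2 := P.anti_sub hp b0 (by omega : i + 1 + t < j) (by omega)
      rw [e1, e2]
      refine ((c.isEar k1).joins_of s (c.a_mem s k1) (c.b_mem s k1)
        (P := h.SubO p oa \ h.Sub p ob) ⟨q1, (c.isEar k1).a_notMem q2⟩ (c.b_mem s k1) (q2.mono le_rfl fun z hz => ?_)
        (Setup.anti_diff_of_subset (s.symm.sub_subset (c.b_mem s k1)))).symm
      by_contra d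
      exact hz.2 ⟨h.sub_subset_subO hp q1 hz.1, d⟩)
    (fun t => by
      have k1 : j + 2 + t < n := by omega
      have q1 := P.top_subO c.nl s b1 (by omega : j + 1 < j + 2 + t) k1
      rw [e1, e3]
      exact ((c.isEar k1).joins_sub s (c.a_mem s k1) (c.b_mem s k1) (h.sub_subset_subO hp q1)
        (s.symm.sub_subset (c.b_mem s k1))).symm)
    (fun t t' d => c.anti (by omega) (by omega) (by omega))
    (fun t t' d => c.anti (by omega) (by omega) (by omega))
    (fun t t' => c.anti (by omega) (by omega) (by omega))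
  refine Setup.few_of_nuLe nu fun E e hE => ?_
  obtain ⟨q1, q2, q3⟩ := hE
  have q4 : E.a ∈ h.SubO p oa := h.subO_subset_subO hp hba.1 q1
  refine ⟨free_of_anti e.notMem ?_, e.touch_b ⟨q2, ?_⟩, e.touch_a (e3 ▸ q1)⟩
  · have r1 := e.anti_root s'.symm q4 q2
    have r2 : Anti G E.set {ob} := by
      refine e.anti_left s'.symm q4 q2 (Set.singleton_subset_iff.2 hba) fun z hz d => ?_
      rw [Set.mem_singleton_iff.1 hz,
        h.sub_eq_of_root hp haH (h.not_mem_sub_of_mem_subO hp q4)] at d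
      exact h.not_mem_sub_of_mem_subO hp q1 d
    rintro v hv z (rfl | rfl | rfl)
    · exact r1 v hv _ rfl
    · exact q3 v hv _ (Or.inr rfl)
    · exact r2 v hv _ rfl
  · rw [← h.insert_subO haH hp, e1]
    exact fun d => e.b_notMem q3 (d.symm)

end PosAux

theorem posStmt_of (h0 : Pos0Stmt) (hC : CrossStmt) : PosStmt := by
  obtain ⟨K, h0⟩ := h0 68
  refine ⟨K, ?_⟩
  intro V _ G S I h p A B n F al be l s c P hl
  have hp := s.uH
  obtain ⟨o₁, w1, m1, u1, d1⟩ := P.exists_white c.nl s (i := l) (by omega)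
  obtain ⟨o₂, w2, m2, u2, d2⟩ := P.exists_white c.nl s (i := l + 24) (by omega)
  obtain ⟨o₃, w3, m3, u3, d3⟩ := P.exists_white c.nl s (i := l + 48) (by omega)
  have h21 : o₂ ∈ h.SubO p o₁ :=
    h.sub_subset_subO hp (P.node_subO c.nl s d1 (by omega : l + 1 < l + 24) (by omega)) u2
  have h32 : o₃ ∈ h.SubO p o₂ :=
    h.sub_subset_subO hp (P.node_subO c.nl s d2 (by omega : l + 24 + 1 < l + 48) (by omega)) u3
  have H1 := white_mem_HH w1
  have H2 := white_mem_HH w2
  have H3 := white_mem_HH w3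
  have n23 := h.not_mem_sub_of_mem_subO hp h32
  have e1 : h.SubO o₂ o₁ = HH S I \ h.Sub p o₁ := (h.white_compl_sub_root hp w1 (s.ne m1) h21).2
  have J1 := PosAux.jump hC s c P w2 w3 m2 d2 u3 d3 (by omega) (by omega)
  have J2 := PosAux.jump hC s c P w1 w2 m1 d1 u2 d2 (by omega) (by omega)
  obtain ⟨gL, x, gR, D, hx, oL, oR, N⟩ := h0 V G S I h o₂ o₃ o₁ _ _ (B ∪ {p})
    (Finset.Ico (l + 50) (l + 64)) F (h.sides_of_white hp w2 (s.ne m2)) h32 w3
    ⟨H1, h.not_mem_sub_of_mem_subO hp h21⟩ w1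
    (c.apart fun i hi => by rw [Finset.mem_Ico] at hi; omega) (by simp)
    (fun k hk => by
      rw [Finset.mem_Ico] at hk
      have k1 : k < n := by omega
      refine ⟨?_, h.subO_subset_sub ?_⟩
      · rw [h.sub_eq_of_root hp H2 n23]
        exact (P.top_subO c.nl s d3 (by omega : l + 48 + 1 < k) k1).1
      · rw [e1]
        exact ⟨s.symm.subset_H (c.b_mem s k1), s.not_mem_sub m1 (c.b_mem s k1)⟩)
    (by rw [h.subO_eq_of_root hp H2 n23]; exact J1) (by rw [e1]; exact J2)
  have hxH := black_mem_HH D.black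
  rw [h.hseg_symm H1 H3, h.mem_hseg_iff_sub hp (h.sub_trans hp h21.1 h32.1)] at hx
  have hx1 : x ∈ h.SubO p o₁ := ⟨hx.1, black_ne_white D.black w1⟩
  have cL : h.Child p x gL := by
    refine (h.adj_child hp hxH (white_mem_HH D.w1) D.a1).resolve_right fun d => ?_
    rw [← d.compl_sub hp] at oL
    exact oL.2 hx.2
  have cR : h.Child p gR x := by
    refine (h.adj_child hp hxH (white_mem_HH D.w2) D.a2).resolve_left fun d => ?_
    rw [d.sub_eq_root hp] at oR
    exact h.not_mem_sub_of_mem_subO hp hx1 (h.sub_trans hp d.2 oR)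
  have gR1 : gR ∈ h.Sub p o₁ := cR.mem_sub_of_ne hp hx1.1 hx1.2
  rw [cL.sub_eq_root hp] at oL
  refine ⟨gR, x, gL, D.symm, h.sub_trans hp u1 gR1, cR.2, cL.2, h.sub_trans hp oL d3,
    N.mono (fun E _ hE => ⟨?_, ?_, hE.2.2⟩) le_rfl⟩
  · rw [h.subO_eq_of_root hp hxH (cL.not_mem hp)]
    exact hE.1
  · rw [(h.white_compl_sub_root hp D.w2 (s.ne (s.sub_subset m1 gR1)) cR.mem_subO).2]
    exact ⟨s.subset_H hE.2.1.1, hE.2.1.2⟩
end Pool.Agent.Ehf
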